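import Pool.Agent.Helper82.OR.AsMain
import Pool.Agent.Helper72.OR.Form

/-!
# OR, block AS: the hypotheses of `brw` from the exponential moments
-/

set_option autoImplicit false
open MeasureTheory Set Filter Topology
open Pool.Agent.Helper93.UG (zc sp)
open Pool.Agent.Helper57.TX (QX DP rs)
open Pool.Agent.Helper62.OP (DC Xo Pp Nt rho Ms pr Rng)
open Pool.Agent.Helper93.OR
open Pool.Agent.Helper72.OR (lev' wf cc form_eq form_var cc_abs lev_var lev_corr)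

namespace Pool.Agent.Helper82.OR

/-- the set where all levels are at most `(log L)^2` at all the integers -/
def Aset (n q : ℕ) (T L : ℝ) : Set ℝ := {t | t ∈ Icc T (2 * T) ∧ ∀ j ∈ Finset.Icc 5 (JJ n q), ∀ i ∈ Finset.Icc ⌈-L⌉ ⌊L⌋,
  |Real.pi * DD n T L (lev n q T L j) t (i : ℤ)| ≤ Real.log L ^ 2}

/-- the exponential moments -/
def StExp (n q : ℕ) (δ : ℝ) : Prop := ∃ c C L₀ T₀ : ℝ, 0 < c ∧ 1 ≤ C ∧ ∀ T L : ℝ, T₀ ≤ T → L₀ ≤ L → L ≤ Real.log T ^ (1 - δ) →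
  ∀ a b : ℕ → ℝ, (∀ j, |a j| ≤ 32) → (∀ j, |b j| ≤ 32) → ∀ x ∈ Finset.Icc ⌈-L⌉ ⌊L⌋, ∀ y ∈ Finset.Icc ⌈-L⌉ ⌊L⌋,
    (1 - C * L ^ (-c)) * T * Real.exp (VV (lev' n q T L (Finset.Icc 5 (JJ n q))) (wf n q T L (Finset.Icc 5 (JJ n q)) a b (x : ℤ) (y : ℤ)) / 4) ≤
      ∫ t in Aset n q T L, Real.exp (DC (lev' n q T L (Finset.Icc 5 (JJ n q))) (wf n q T L (Finset.Icc 5 (JJ n q)) a b (x : ℤ) (y : ℤ)) t).re ∧
    ∫ t in Aset n q T L, Real.exp (DC (lev' n q T L (Finset.Icc 5 (JJ n q))) (wf n q T L (Finset.Icc 5 (JJ n q)) a b (x : ℤ) (y : ℤ)) t).re ≤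
      (1 + C * L ^ (-c)) * T * Real.exp (VV (lev' n q T L (Finset.Icc 5 (JJ n q))) (wf n q T L (Finset.Icc 5 (JJ n q)) a b (x : ℤ) (y : ℤ)) / 4)

lemma DC_cont (Q : Finset ℕ) (w : ℕ → ℂ) (hQ : ∀ p ∈ Q, p.Prime) : Continuous fun t : ℝ => DC Q w t := by
  unfold DC
  apply continuous_finsetSum
  intro p hp
  have hp0 : (p : ℂ) ≠ 0 := by exact_mod_cast (hQ p hp).ne_zero
  apply Continuous.mul continuous_const
  apply Continuous.const_cpow (by fun_prop)
  exact Or.inl hp0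

lemma DD_meas (n q : ℕ) (T L : ℝ) (j : ℕ) (x : ℝ) : Continuous fun t : ℝ => DD n T L (lev n q T L j) t x := by
  unfold DD
  have h := DC_cont (lev n q T L j) (w0 n T L) (fun p hp => Pool.Agent.Helper72.OR.lev_prime hp)
  exact Complex.continuous_re.comp (h.comp (by fun_prop))

lemma Aset_meas (n q : ℕ) (T L : ℝ) : MeasurableSet (Aset n q T L) := by
  have : Aset n q T L = Icc T (2 * T) ∩ ⋂ j ∈ Finset.Icc 5 (JJ n q), ⋂ i ∈ Finset.Icc ⌈-L⌉ ⌊L⌋,
      {t : ℝ | |Real.pi * DD n T L (lev n q T L j) t (i : ℤ)| ≤ Real.log L ^ 2} := by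
    ext t
    simp only [Aset, Set.mem_ofPred_eq, Set.mem_inter_iff, Set.mem_iInter]
  rw [this]
  apply measurableSet_Icc.inter
  apply MeasurableSet.biInter (Finset.countable_toSet _)
  intro j _
  apply MeasurableSet.biInter (Finset.countable_toSet _)
  intro i _
  exact (isClosed_le ((continuous_const.mul (DD_meas n q T L j _)).abs) continuous_const).measurableSet

/-- `StHyp` from `StExp` -/
theorem hyp_of {n q : ℕ} (hn : 4 ≤ n) (hq : 5 ≤ q) {δ : ℝ} (hδ : 0 < δ) (hδ1 : δ ≤ 1) (hnd : 1 / n ≤ δ) (hE : StExp n q δ) :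
    StHyp n q δ := by
  obtain ⟨c1, C1, L1, T1, hc1, hC1, H1⟩ := hE
  obtain ⟨c2, C2, T2, hc2, hC2, H2⟩ := lev_var hn (by omega : 1 ≤ q) hδ hδ1 hnd
  have hpi := Real.pi_pos
  have hpi4 := Real.pi_lt_four
  obtain ⟨c, hc⟩ : ∃ c, c = min c1 c2 := ⟨_, rfl⟩
  have hc0 : 0 < c := by rw [hc]; exact lt_min hc1 hc2
  have hcc1 : c ≤ c1 := by rw [hc]; exact min_le_left _ _
  have hcc2 : c ≤ c2 := by rw [hc]; exact min_le_right _ _
  obtain ⟨L0, hL0, HL0⟩ := pow_small hc0 (show 0 ≤ (JJ n q : ℝ) * (C1 + 8 * C2) by positivity) (1 / 100) (by norm_num)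
  have hJ10 : 10 ≤ JJ n q := by
    unfold JJ
    have : 2 ≤ n - 2 := by omega
    nlinarith
  refine ⟨c, C1 + 8 * C2, max (max L0 L1) C2, max (max T1 T2) 3, hc0, by linarith, fun T L hT hL hLT σ hσ => ⟨Aset n q T L, ?_⟩⟩
  have hT1 : T1 ≤ T := ((le_max_left _ _).trans (le_max_left _ _)).trans hT
  have hT2 : T2 ≤ T := ((le_max_right _ _).trans (le_max_left _ _)).trans hT
  have hT3 : 3 ≤ T := (le_max_right _ _).trans hT
  have hLL0 : L0 ≤ L := ((le_max_left _ _).trans (le_max_left _ _)).trans hL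
  have hLL1 : L1 ≤ L := ((le_max_right _ _).trans (le_max_left _ _)).trans hL
  have hLL2 : C2 ≤ L := (le_max_right _ _).trans hL
  have hLone : 1 ≤ L := hL0.trans hLL0
  have hlT : 0 ≤ Real.log T := Real.log_nonneg (by linarith)
  have hlL : 0 ≤ Real.log L := Real.log_nonneg hLone
  have hT0 : 0 < T := by linarith
  have hσ1 : |σ| = 1 := by rcases hσ with h | h <;> rw [h] <;> simp
  have hσ2 : σ ^ 2 = 1 := by rw [← sq_abs, hσ1]; norm_num
  have hJ1 : ∀ j ∈ Finset.Icc 5 (JJ n q), 1 ≤ j := fun j hj => by rw [Finset.mem_Icc] at hj; omega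
  have hJin : ∀ j ∈ Finset.Icc 5 (JJ n q), j ∈ Finset.Icc 1 (JJ n q) := fun j hj => by
    rw [Finset.mem_Icc] at hj ⊢
    exact ⟨by omega, hj.2⟩
  have hpow1 : L ^ (-c1) ≤ L ^ (-c) := Real.rpow_le_rpow_of_exponent_le hLone (by linarith)
  have hpow2 : L ^ (-c2) ≤ L ^ (-c) := Real.rpow_le_rpow_of_exponent_le hLone (by linarith)
  have hpow0 : 0 ≤ L ^ (-c) := by positivity
  have hη1 : C1 * L ^ (-c1) ≤ (C1 + 8 * C2) * L ^ (-c) := by
    calc C1 * L ^ (-c1) ≤ C1 * L ^ (-c) := mul_le_mul_of_nonneg_left hpow1 (by linarith)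
      _ ≤ _ := mul_le_mul_of_nonneg_right (by linarith) hpow0
  have hpi2 : Real.pi ^ 2 / 2 ≤ 8 := by nlinarith
  -- the forms
  have hform : ∀ a b : ℕ → ℝ, ∀ x y : ℤ, ∀ t : ℝ, Fm (Finset.Icc 5 (JJ n q)) (fun j (i : ℤ) t => σ * Real.pi * DD n T L (lev n q T L j) t i) a b x y t =
      (DC (lev' n q T L (Finset.Icc 5 (JJ n q))) (wf n q T L (Finset.Icc 5 (JJ n q)) (fun j => σ * Real.pi * a j)
        (fun j => σ * Real.pi * b j) (x : ℝ) (y : ℝ)) t).re := by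
    intro a b x y t
    rw [form_eq hlT hLone hJ1]
    unfold Fm
    refine Finset.sum_congr rfl fun j _ => ?_
    ring
  have hvar : ∀ a b : ℕ → ℝ, ∀ x y : ℤ, Vm (Finset.Icc 5 (JJ n q)) (fun j => Real.pi ^ 2 / 2 * VV (lev n q T L j) (w0 n T L))
      (fun j (x y : ℤ) => Real.pi ^ 2 / 2 * ∑ p ∈ lev n q T L j, ‖w0 n T L p‖ ^ 2 / p * Real.cos (((x : ℝ) - y) * sp T * Real.log p)) a b x y / 2 =
      VV (lev' n q T L (Finset.Icc 5 (JJ n q))) (wf n q T L (Finset.Icc 5 (JJ n q)) (fun j => σ * Real.pi * a j)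
        (fun j => σ * Real.pi * b j) (x : ℝ) (y : ℝ)) / 4 := by
    intro a b x y
    rw [form_var hlT hLone hJ1]
    unfold Vm cc
    rw [Finset.sum_div, Finset.sum_div]
    refine Finset.sum_congr rfl fun j _ => ?_
    have e1 : (σ * Real.pi * a j) ^ 2 = Real.pi ^ 2 * a j ^ 2 := by rw [mul_pow, mul_pow, hσ2]; ring
    have e2 : (σ * Real.pi * b j) ^ 2 = Real.pi ^ 2 * b j ^ 2 := by rw [mul_pow, mul_pow, hσ2]; ring
    have e3 : 2 * (σ * Real.pi * a j) * (σ * Real.pi * b j) = Real.pi ^ 2 * (2 * a j * b j) := by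
      calc 2 * (σ * Real.pi * a j) * (σ * Real.pi * b j) = σ ^ 2 * (Real.pi ^ 2 * (2 * a j * b j)) := by ring
        _ = _ := by rw [hσ2, one_mul]
    rw [e1, e2, e3]
    ring
  have hab : ∀ a : ℕ → ℝ, (∀ j, |a j| ≤ 8) → ∀ j, |(fun j => σ * Real.pi * a j) j| ≤ 32 := by
    intro a ha j
    simp only
    rw [abs_mul, abs_mul, hσ1, one_mul, abs_of_pos hpi]
    have := ha j
    nlinarith [abs_nonneg (a j)]
  constructor
  · rw [Measure.restrict_apply_univ, Real.volume_Icc]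
    exact ENNReal.ofReal_le_ofReal (by linarith)
  · exact Aset_meas n q T L
  · intro j _ x _
    exact (continuous_const.mul (DD_meas n q T L j _)).measurable
  · intro t ht j hj x hx
    have h := ht.2 j hj x hx
    rw [abs_mul] at h ⊢
    rw [abs_mul, hσ1, one_mul]
    exact h
  · exact hT0
  · unfold Wb
    positivity
  · positivity
  · have h1 : ((Finset.Icc 5 (JJ n q)).card : ℝ) ≤ JJ n q := by
      rw [Nat.card_Icc]
      exact_mod_cast (by omega : JJ n q + 1 - 5 ≤ JJ n q)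
    have h2 := HL0 L hLL0
    have h3 : 0 ≤ (C1 + 8 * C2) * L ^ (-c) := by positivity
    have h4 := mul_le_mul_of_nonneg_right h1 h3
    linarith
  · rw [Nat.card_Icc]
    omega
  · intro j hj
    have h1 := (H2 T L hT2 hLL2 hLT j (hJin j hj)).1
    have h2 : Real.pi ^ 2 / 2 * VV (lev n q T L j) (w0 n T L) - Wb n q L =
        Real.pi ^ 2 / 2 * (VV (lev n q T L j) (w0 n T L) - 2 * Wb n q L / Real.pi ^ 2) := by
      field_simp
    rw [h2, abs_mul, abs_of_pos (by positivity)]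
    calc Real.pi ^ 2 / 2 * |VV (lev n q T L j) (w0 n T L) - 2 * Wb n q L / Real.pi ^ 2| ≤ 8 * (C2 * L ^ (-c2)) :=
        mul_le_mul hpi2 h1 (abs_nonneg _) (by norm_num)
      _ ≤ 8 * (C2 * L ^ (-c)) := by gcongr
      _ ≤ (C1 + 8 * C2) * L ^ (-c) := by nlinarith
  · intro j _ x _ y _
    have h1 := cc_abs n q T L j (x : ℝ) (y : ℝ)
    unfold cc at h1
    rw [abs_mul, abs_of_pos (by positivity : 0 < Real.pi ^ 2 / 2)]
    exact mul_le_mul_of_nonneg_left h1 (by positivity)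
  · intro a b ha hb x hx y hy
    have h1 := (H1 T L hT1 hLL1 hLT _ _ (hab a ha) (hab b hb) x hx y hy).2
    rw [hvar]
    simp_rw [hform]
    rw [Measure.restrict_restrict (Aset_meas n q T L), Set.inter_eq_left.2 (fun t ht => ht.1)]
    refine h1.trans ?_
    exact mul_le_mul_of_nonneg_right (mul_le_mul_of_nonneg_right (by linarith) hT0.le) (Real.exp_pos _).le
  · intro a b ha hb x hx y hy
    have h1 := (H1 T L hT1 hLL1 hLT _ _ (hab a ha) (hab b hb) x hx y hy).1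
    rw [hvar]
    simp_rw [hform]
    rw [Measure.restrict_restrict (Aset_meas n q T L), Set.inter_eq_left.2 (fun t ht => ht.1)]
    refine le_trans ?_ h1
    exact mul_le_mul_of_nonneg_right (mul_le_mul_of_nonneg_right (by linarith) hT0.le) (Real.exp_pos _).le

end Pool.Agent.Helper82.OR
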