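import Pool.Agent.Helper82.OR.Pairs
import Pool.Agent.Helper93.OR.Defs

/-!
# OR, block AS: the number of the high points of the main levels
-/

set_option autoImplicit false
open MeasureTheory Set Filter Topology
open Pool.Agent.Helper93.UG (zc sp)
open Pool.Agent.Helper57.TX (QX DP rs)
open Pool.Agent.Helper62.OP (DC Xo Pp Nt rho Ms pr Rng)
open Pool.Agent.Helper93.OR

namespace Pool.Agent.Helper82.OR

section
variable {Ω ι : Type*} [MeasurableSpace Ω] {μ : Measure Ω} {A : Set Ω} {J : Finset ℕ} {G : Finset ι} {D : ℕ → ι → Ω → ℝ} {v : ℕ → ℝ}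
  {c : ℕ → ι → ι → ℝ} {τ W η H : ℝ}

/-- fewer points, a larger `η` -/
lemma Hyp.mono (h : Hyp μ A J G D v c τ W η H) {G' : Finset ι} (hG : G' ⊆ G) {η₂ : ℝ} (hη : η ≤ η₂) (hη2 : J.card * η₂ ≤ 1 / 100) :
    Hyp μ A J G' D v c τ W η₂ H where
  mass := h.mass
  meas := h.meas
  Dmeas := fun j hj x hx => h.Dmeas j hj x (hG hx)
  bd := fun t ht j hj x hx => h.bd t ht j hj x (hG hx)
  tau := h.tau
  W0 := h.W0
  eta := h.eta.trans hη
  neta := hη2
  Jne := h.Jne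
  var := fun j hj => (h.var j hj).trans hη
  cov := fun j hj x hx y hy => h.cov j hj x (hG hx) y (hG hy)
  up := fun a b ha hb x hx y hy => by
    refine (h.up a b ha hb x (hG hx) y (hG hy)).trans ?_
    have := h.tau
    exact mul_le_mul_of_nonneg_right (mul_le_mul_of_nonneg_right (by linarith) this.le) (Real.exp_pos _).le
  low := fun a b ha hb x hx y hy => by
    refine le_trans ?_ (h.low a b ha hb x (hG hx) y (hG hy))
    have := h.tau
    exact mul_le_mul_of_nonneg_right (mul_le_mul_of_nonneg_right (by linarith) this.le) (Real.exp_pos _).le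

end

/-- the application of ML (helper62) -/
def StHyp (n q : ℕ) (δ : ℝ) : Prop := ∃ c C L₀ T₀ : ℝ, 0 < c ∧ 1 ≤ C ∧ ∀ T L : ℝ, T₀ ≤ T → L₀ ≤ L → L ≤ Real.log T ^ (1 - δ) →
  ∀ σ : ℝ, (σ = 1 ∨ σ = -1) → ∃ A : Set ℝ, Hyp (volume.restrict (Icc T (2 * T))) A (Finset.Icc 5 (JJ n q)) (Finset.Icc ⌈-L⌉ ⌊L⌋)
    (fun j (i : ℤ) t => σ * Real.pi * DD n T L (lev n q T L j) t i) (fun j => Real.pi ^ 2 / 2 * VV (lev n q T L j) (w0 n T L))
    (fun j (x y : ℤ) => Real.pi ^ 2 / 2 * ∑ p ∈ lev n q T L j, ‖w0 n T L p‖ ^ 2 / p * Real.cos (((x : ℝ) - y) * sp T * Real.log p))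
    T (Wb n q L) (C * L ^ (-c)) (Real.log L ^ 2)

/-- the correlations (helper72) -/
def StCorr (n q : ℕ) (δ : ℝ) : Prop := ∃ c C T₀ : ℝ, 0 < c ∧ 1 ≤ C ∧ ∀ T L : ℝ, T₀ ≤ T → C ≤ L → L ≤ Real.log T ^ (1 - δ) →
  ∀ j ∈ Finset.Icc 1 (JJ n q), ∀ h : ℝ, h ≠ 0 → |h| ≤ 2 * L →
    |∑ p ∈ lev n q T L j, ‖w0 n T L p‖ ^ 2 / p * Real.cos (h * sp T * Real.log p)| ≤
      C * (L ^ (1 - ((j : ℝ) - 1) / (n * q)) / |h| + L ^ (-c))

/-- powers with small exponents -/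
lemma pow_small {C c : ℝ} (hc : 0 < c) (hC : 0 ≤ C) (B : ℝ) (hB : 0 < B) : ∃ L₀ : ℝ, 1 ≤ L₀ ∧ ∀ L : ℝ, L₀ ≤ L → C * L ^ (-c) ≤ B := by
  refine ⟨max 1 ((C / B + 1) ^ (1 / c)), le_max_left _ _, fun L hL => ?_⟩
  have h1 : 1 ≤ L := (le_max_left _ _).trans hL
  have h2 : (C / B + 1) ^ (1 / c) ≤ L := (le_max_right _ _).trans hL
  have h0 : 0 < C / B + 1 := by positivity
  have h3 : C / B + 1 ≤ L ^ c := by
    calc C / B + 1 = ((C / B + 1) ^ (1 / c)) ^ c := by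
          rw [← Real.rpow_mul h0.le, one_div_mul_cancel hc.ne', Real.rpow_one]
      _ ≤ L ^ c := Real.rpow_le_rpow (by positivity) h2 hc.le
  have h4 : 0 < L ^ c := by positivity
  rw [Real.rpow_neg (by linarith), ← div_eq_mul_inv, div_le_iff₀ h4]
  have h5 : C / B ≤ L ^ c := by linarith
  rw [div_le_iff₀ hB] at h5
  linarith

/-- **AS** -/
theorem as_main_of {n q : ℕ} (hn : 4 ≤ n) (hq : 5 ≤ q) {δ e : ℝ} (hH : StHyp n q δ) (hCo : StCorr n q δ) (he : 0 < e)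
    (he1 : e ≤ 1 / 4) : ∃ c C T₀ : ℝ, 0 < c ∧ 1 ≤ C ∧ ∀ T L : ℝ, T₀ ≤ T → C ≤ L → L ≤ Real.log T ^ (1 - δ) →
    ∀ σ lam a b : ℝ, (σ = 1 ∨ σ = -1) → e ≤ lam → lam ≤ 2 * (1 - e) → -L ≤ a → b ≤ L → a + L / 4 ≤ b →
    ∃ E : Set ℝ, volume E ≤ ENNReal.ofReal (C * L ^ (-c) * T) ∧ ∀ t ∈ Icc T (2 * T), t ∉ E →
      L * Real.exp (-((1 + 3 * e) * lam ^ 2 * Real.log L / 4)) ≤
        C * (((Finset.Icc ⌈a⌉ ⌊b⌋).filter fun i : ℤ =>
          (1 - e) * lam * ((JJ n q : ℝ) - 4) / (2 * Real.pi * (n * q)) * Real.log L ≤ σ * Sm n q T L t i).card : ℝ) := by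
  classical
  obtain ⟨cH, CH, LH, TH, hcH, hCH, H⟩ := hH
  obtain ⟨cL, CL, TL, hcL, hCL, HL⟩ := hCo
  have hpi := Real.pi_pos
  have hpi4 := Real.pi_lt_four
  -- constants
  obtain ⟨K, hK⟩ : ∃ K : ℝ, K = (n : ℝ) * q := ⟨_, rfl⟩
  have hn' : (4:ℝ) ≤ n := by exact_mod_cast hn
  have hq' : (5:ℝ) ≤ q := by exact_mod_cast hq
  have hK20 : 20 ≤ K := by rw [hK]; nlinarith
  have hK0 : 0 < K := by linarith
  have hJJ : (JJ n q : ℝ) = (n - 2) * q := by
    unfold JJ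
    rw [Nat.cast_mul, Nat.cast_sub (by omega)]
    norm_num
  have hJ10 : 10 ≤ JJ n q := by
    unfold JJ
    have : 2 ≤ n - 2 := by omega
    nlinarith
  have hJK : (JJ n q : ℝ) ≤ K := by rw [hJJ, hK]; nlinarith
  have hcard : ((Finset.Icc 5 (JJ n q)).card : ℝ) = (JJ n q : ℝ) - 4 := by
    rw [Nat.card_Icc, Nat.cast_sub (by omega)]
    push_cast
    ring
  have hcardK : ((Finset.Icc 5 (JJ n q)).card : ℝ) ≤ K := by rw [hcard]; linarith
  have hcard1 : (1:ℝ) ≤ (Finset.Icc 5 (JJ n q)).card := by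
    rw [hcard]
    have : (10:ℝ) ≤ JJ n q := by exact_mod_cast hJ10
    linarith
  obtain ⟨ρ, hρ⟩ : ∃ ρ, ρ = (1 - e) ^ 2 * (1 + 2 * e) := ⟨_, rfl⟩
  have hρ1 : ρ < 1 := by rw [hρ]; nlinarith [mul_pos he he, mul_pos (mul_pos he he) he]
  have hρ0 : 0 < ρ := by
    rw [hρ]
    have : 0 < 1 - e := by linarith
    positivity
  obtain ⟨c1, hc1⟩ : ∃ c1, c1 = min (min cH cL) (min (1 / K) (1 - ρ)) := ⟨_, rfl⟩
  have hc10 : 0 < c1 := by
    rw [hc1]
    exact lt_min (lt_min hcH hcL) (lt_min (by positivity) (by linarith))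
  have hc1H : c1 ≤ cH := by rw [hc1]; exact (min_le_left _ _).trans (min_le_left _ _)
  have hc1L : c1 ≤ cL := by rw [hc1]; exact (min_le_left _ _).trans (min_le_right _ _)
  have hc1K : c1 ≤ 1 / K := by rw [hc1]; exact (min_le_right _ _).trans (min_le_left _ _)
  have hc1ρ : c1 ≤ 1 - ρ := by rw [hc1]; exact (min_le_right _ _).trans (min_le_right _ _)
  obtain ⟨c2, hc2⟩ : ∃ c2, c2 = min c1 (e ^ 4 / (4 * K)) := ⟨_, rfl⟩
  have hc20 : 0 < c2 := by rw [hc2]; exact lt_min hc10 (by positivity)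
  have hc21 : c2 ≤ c1 := by rw [hc2]; exact min_le_left _ _
  have hc2e : c2 ≤ e ^ 4 / (4 * K) := by rw [hc2]; exact min_le_right _ _
  obtain ⟨Ce, hCe⟩ : ∃ Ce, Ce = CH + 16 * CL := ⟨_, rfl⟩
  obtain ⟨Cp, hCp⟩ : ∃ Cp, Cp = 16 * (4 + K) + 8 := ⟨_, rfl⟩
  have hCe0 : 0 < Ce := by rw [hCe]; linarith
  have hCp0 : 0 < Cp := by rw [hCp]; linarith
  obtain ⟨L1, hL11, HL1⟩ := pow_small hc10 (show 0 ≤ K * Ce by positivity) (1 / 100) (by norm_num)
  obtain ⟨L2, hL21, HL2⟩ := pow_small hc10 hCp0.le 1 (by norm_num)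
  refine ⟨c2, max (max (max LH CL) (max L1 L2)) (max (200 * (Cp + K * Ce + K)) 100), max (max TH TL) 3, hc20,
    le_max_of_le_left (le_max_of_le_left (le_max_of_le_right hCL)), fun T L hT hL hLT σ lam a b hσ hel hlam ha hb hab => ?_⟩
  have hTH : TH ≤ T := ((le_max_left _ _).trans (le_max_left _ _)).trans hT
  have hTL : TL ≤ T := ((le_max_right _ _).trans (le_max_left _ _)).trans hT
  have hT3 : 3 ≤ T := (le_max_right _ _).trans hT
  have hCm : max (max LH CL) (max L1 L2) ≤ L := (le_max_left _ _).trans hL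
  have hLH : LH ≤ L := ((le_max_left _ _).trans (le_max_left _ _)).trans hCm
  have hLL : CL ≤ L := ((le_max_right _ _).trans (le_max_left _ _)).trans hCm
  have hLL1 : L1 ≤ L := ((le_max_left _ _).trans (le_max_right _ _)).trans hCm
  have hLL2 : L2 ≤ L := ((le_max_right _ _).trans (le_max_right _ _)).trans hCm
  have hCbig : 200 * (Cp + K * Ce + K) ≤ max (max (max LH CL) (max L1 L2)) (max (200 * (Cp + K * Ce + K)) 100) :=
    (le_max_left _ _).trans (le_max_right _ _)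
  have hC100 : (100:ℝ) ≤ max (max (max LH CL) (max L1 L2)) (max (200 * (Cp + K * Ce + K)) 100) :=
    (le_max_right _ _).trans (le_max_right _ _)
  have hL100 : 100 ≤ L := hC100.trans hL
  obtain ⟨Cf, hCf⟩ : ∃ Cf, Cf = max (max (max LH CL) (max L1 L2)) (max (200 * (Cp + K * Ce + K)) 100) := ⟨_, rfl⟩
  rw [← hCf] at hCbig hC100 ⊢
  have hL1 : 1 ≤ L := by linarith
  have hL0 : 0 < L := by linarith
  have hlL : 0 < Real.log L := Real.log_pos (by linarith)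
  have hlam0 : 0 < lam := by linarith
  have hlam2 : lam ≤ 2 := by linarith
  obtain ⟨A, hA⟩ := H T L hTH hLH hLT σ hσ
  obtain ⟨J, hJ⟩ : ∃ J, J = Finset.Icc 5 (JJ n q) := ⟨_, rfl⟩
  obtain ⟨G, hG⟩ : ∃ G : Finset ℤ, G = Finset.Icc ⌈a⌉ ⌊b⌋ := ⟨_, rfl⟩
  rw [← hJ] at hA hcard hcardK hcard1
  obtain ⟨D, hD⟩ : ∃ D : ℕ → ℤ → ℝ → ℝ, D = fun j (i : ℤ) t => σ * Real.pi * DD n T L (lev n q T L j) t i := ⟨_, rfl⟩
  obtain ⟨v, hv⟩ : ∃ v : ℕ → ℝ, v = fun j => Real.pi ^ 2 / 2 * VV (lev n q T L j) (w0 n T L) := ⟨_, rfl⟩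
  obtain ⟨cc, hcc⟩ : ∃ cc : ℕ → ℤ → ℤ → ℝ, cc = fun j (x y : ℤ) => Real.pi ^ 2 / 2 * ∑ p ∈ lev n q T L j, ‖w0 n T L p‖ ^ 2 / p *
    Real.cos (((x : ℝ) - y) * sp T * Real.log p) := ⟨_, rfl⟩
  rw [← hD, ← hv, ← hcc] at hA
  obtain ⟨η, hη⟩ : ∃ η, η = Ce * L ^ (-c1) := ⟨_, rfl⟩
  have hη0 : 0 ≤ η := by rw [hη]; positivity
  have hGs : G ⊆ Finset.Icc ⌈-L⌉ ⌊L⌋ := by
    rw [hG]
    exact Finset.Icc_subset_Icc (Int.ceil_le_ceil ha) (Int.floor_le_floor hb)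
  have hηle : CH * L ^ (-cH) ≤ η := by
    rw [hη]
    exact mul_le_mul (by rw [hCe]; linarith) (Real.rpow_le_rpow_of_exponent_le hL1 (by linarith)) (by positivity) hCe0.le
  have hKη : K * η ≤ 1 / 100 := by
    have := HL1 L hLL1
    rw [hη]
    linarith
  have hJη : (J.card : ℝ) * η ≤ 1 / 100 := (mul_le_mul_of_nonneg_right hcardK hη0).trans hKη
  have hA2 := hA.mono hGs hηle hJη
  -- the points
  have hGm : ∀ x ∈ G, a ≤ (x : ℝ) ∧ (x : ℝ) ≤ b := by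
    intro x hx
    rw [hG, Finset.mem_Icc] at hx
    exact ⟨Int.ceil_le.1 hx.1, Int.le_floor.1 hx.2⟩
  have hGcard : L / 8 ≤ (G.card : ℝ) := by
    rw [hG, Int.card_Icc]
    have h1 : (((⌊b⌋ + 1 - ⌈a⌉).toNat : ℕ) : ℝ) ≥ ((⌊b⌋ + 1 - ⌈a⌉ : ℤ) : ℝ) := by exact_mod_cast Int.self_le_toNat _
    push_cast at h1
    have h2 := Int.lt_floor_add_one b
    have h3 := Int.ceil_lt_add_one a
    linarith
  have hGne : G.Nonempty := by
    rw [← Finset.card_pos]
    have : (0:ℝ) < G.card := by linarith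
    exact_mod_cast this
  -- correlations
  have hcorr : ∀ x ∈ G, ∀ y ∈ G, ∀ j ∈ J \ Co J K L x y, |cc j x y| ≤ η := by
    intro x hx y hy j hj
    rw [Finset.mem_sdiff] at hj
    obtain ⟨hjJ, hjn⟩ := hj
    have hjc : L ^ (1 - ((j : ℝ) - 2) / K) ≤ |(x : ℝ) - y| := by
      by_contra hlt
      rw [not_le] at hlt
      exact hjn (Finset.mem_filter.2 ⟨hjJ, hlt⟩)
    have hh0 : 0 < |(x : ℝ) - y| := lt_of_lt_of_le (by positivity) hjc
    have hne : (x : ℝ) - y ≠ 0 := abs_pos.1 hh0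
    have h2L : |(x : ℝ) - y| ≤ 2 * L := by
      have h1 := hGm x hx
      have h2 := hGm y hy
      rw [abs_le]
      constructor <;> linarith
    have hj1 : j ∈ Finset.Icc 1 (JJ n q) := by
      rw [hJ, Finset.mem_Icc] at hjJ
      rw [Finset.mem_Icc]
      exact ⟨by omega, hjJ.2⟩
    have h1 := HL T L hTL hLL hLT j hj1 ((x : ℝ) - y) hne h2L
    rw [← hK] at h1
    rw [hcc]
    simp only
    rw [abs_mul, abs_of_pos (by positivity)]
    have h2 : L ^ (1 - ((j : ℝ) - 1) / K) / |(x : ℝ) - y| ≤ L ^ (-c1) := by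
      rw [div_le_iff₀ hh0]
      calc L ^ (1 - ((j : ℝ) - 1) / K) = L ^ (-(1 / K)) * L ^ (1 - ((j : ℝ) - 2) / K) := by
            rw [← Real.rpow_add hL0]
            congr 1
            ring
        _ ≤ L ^ (-c1) * |(x : ℝ) - y| :=
            mul_le_mul (Real.rpow_le_rpow_of_exponent_le hL1 (by linarith)) hjc (by positivity) (by positivity)
    have h3 : L ^ (-cL) ≤ L ^ (-c1) := Real.rpow_le_rpow_of_exponent_le hL1 (by linarith)
    have h4 : Real.pi ^ 2 / 2 ≤ 8 := by nlinarith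
    calc Real.pi ^ 2 / 2 * |∑ p ∈ lev n q T L j, ‖w0 n T L p‖ ^ 2 / p * Real.cos (((x : ℝ) - y) * sp T * Real.log p)| ≤
        8 * (CL * (L ^ (-c1) + L ^ (-c1))) :=
          mul_le_mul h4 (h1.trans (mul_le_mul_of_nonneg_left (add_le_add h2 h3) (by linarith))) (abs_nonneg _) (by norm_num)
      _ = 16 * CL * L ^ (-c1) := by ring
      _ ≤ η := by
        rw [hη]
        exact mul_le_mul_of_nonneg_right (by rw [hCe]; linarith) (by positivity)
  -- pairs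
  obtain ⟨β, hβ⟩ : ∃ β, β = lam ^ 2 * Wb n q L * (1 / 2 + e) := ⟨_, rfl⟩
  have hW : Wb n q L = Real.log L / (2 * K) := by unfold Wb; rw [hK]
  have hW0 : 0 < Wb n q L := by rw [hW]; positivity
  have hβ0 : 0 ≤ β := by rw [hβ]; positivity
  have hβL : Real.exp β ≤ L ^ (ρ / K) := by
    rw [Real.rpow_def_of_pos hL0]
    apply Real.exp_le_exp.2
    have h1 : lam ^ 2 ≤ 4 * (1 - e) ^ 2 := by
      calc lam ^ 2 ≤ (2 * (1 - e)) ^ 2 := pow_le_pow_left₀ hlam0.le hlam 2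
        _ = _ := by ring
    rw [hβ, hW]
    calc lam ^ 2 * (Real.log L / (2 * K)) * (1 / 2 + e) ≤ 4 * (1 - e) ^ 2 * (Real.log L / (2 * K)) * (1 / 2 + e) :=
        mul_le_mul_of_nonneg_right (mul_le_mul_of_nonneg_right h1 (by positivity)) (by linarith)
      _ = Real.log L * (ρ / K) := by rw [hρ]; field_simp; ring
  obtain ⟨M, hM⟩ : ∃ M : ℕ, M = ⌊2 * L⌋₊ := ⟨_, rfl⟩
  have hM1 : 1 ≤ M := by
    rw [hM]
    exact Nat.le_floor (by push_cast; linarith)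
  have hMd : ∀ x ∈ G, ∀ y ∈ G, (x - y).natAbs ≤ M := by
    intro x hx y hy
    rw [hM]
    apply Nat.le_floor
    have h1 := hGm x hx
    have h2 := hGm y hy
    rw [Nat.cast_natAbs]
    push_cast
    rw [abs_le]
    constructor <;> linarith
  have hpair0 := all_pairs (J := J) (K := K) (L := L) (β := β) (ρ := ρ) (M := M) hK0 hL1 hβ0 hβL hρ1.le hρ0.le
    (fun j hj => by rw [hJ, Finset.mem_Icc] at hj; exact hj.1) hcardK hM1 hMd hGcard
  obtain ⟨η', hη'⟩ : ∃ η', η' = Cp * L ^ (-c1) := ⟨_, rfl⟩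
  have hη'0 : 0 ≤ η' := by rw [hη']; positivity
  have hη'1 : η' ≤ 1 := by rw [hη']; exact HL2 L hLL2
  have hη'le : 16 * L ^ (-(2 / K)) * (1 + Real.log M) + 8 * L ^ (ρ - 1) ≤ η' := by
    have h1 : Real.log M ≤ 2 + Real.log L := by
      have h2 : (M : ℝ) ≤ 2 * L := by rw [hM]; exact Nat.floor_le (by linarith)
      have h3 : Real.log M ≤ Real.log (2 * L) := Real.log_le_log (by exact_mod_cast hM1) h2
      rw [Real.log_mul (by norm_num) hL0.ne'] at h3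
      have := Real.log_two_lt_d9
      linarith
    have h2 : Real.log L ≤ K * L ^ (1 / K) := by
      have := Real.log_le_rpow_div hL0.le (show 0 < 1 / K by positivity)
      rw [div_div_eq_mul_div, div_one, mul_comm] at this
      exact this
    have h3 : 1 ≤ L ^ (1 / K) := Real.one_le_rpow hL1 (by positivity)
    have h4 : 1 + Real.log M ≤ (4 + K) * L ^ (1 / K) := by nlinarith
    have h5 : L ^ (-(2 / K)) * L ^ (1 / K) = L ^ (-(1 / K)) := by
      rw [← Real.rpow_add hL0]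
      congr 1
      ring
    have h6 : L ^ (-(1 / K)) ≤ L ^ (-c1) := Real.rpow_le_rpow_of_exponent_le hL1 (by linarith)
    have h7 : L ^ (ρ - 1) ≤ L ^ (-c1) := Real.rpow_le_rpow_of_exponent_le hL1 (by linarith)
    calc 16 * L ^ (-(2 / K)) * (1 + Real.log M) + 8 * L ^ (ρ - 1) ≤ 16 * L ^ (-(2 / K)) * ((4 + K) * L ^ (1 / K)) + 8 * L ^ (ρ - 1) := by gcongr
      _ = 16 * (4 + K) * (L ^ (-(2 / K)) * L ^ (1 / K)) + 8 * L ^ (ρ - 1) := by ring
      _ ≤ 16 * (4 + K) * L ^ (-c1) + 8 * L ^ (-c1) := by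
        rw [h5]
        gcongr
      _ = η' := by rw [hη', hCp]; ring
  have hpair : ∑ x ∈ G, ∑ y ∈ G, Real.exp ((Co J K L x y).card * (lam ^ 2 * Wb n q L * (1 / 2 + e))) ≤ (1 + η') * (G.card : ℝ) ^ 2 := by
    rw [← hβ]
    exact hpair0.trans (mul_le_mul_of_nonneg_right (by linarith) (by positivity))
  have hb := brw hA2 hGne hlam0 hlam2 he he1 (J1 := Co J K L) (fun x _ y _ => Finset.filter_subset _ _) hcorr hη'0 hη'1 hpair
  obtain ⟨S, hS⟩ : ∃ S : Set ℝ, S = {t | ((G.filter fun x => t ∈ Gd J D ((1 - e) * lam * Wb n q L) ((1 + e) * lam * Wb n q L) x).card : ℝ) ≤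
      G.card / 4 * Real.exp (-(lam ^ 2 * J.card * Wb n q L * (1 / 2 + e)))} := ⟨_, rfl⟩
  rw [← hS] at hb
  refine ⟨S ∩ Icc T (2 * T), ?_, fun t ht htE => ?_⟩
  · rw [← Measure.restrict_apply' measurableSet_Icc]
    refine hb.trans (ENNReal.ofReal_le_ofReal ?_)
    have hT0 : 0 ≤ T := by linarith
    apply mul_le_mul_of_nonneg_right _ hT0
    have h1 : Real.exp (-(e ^ 2 * lam ^ 2 * Wb n q L / 2)) ≤ L ^ (-c2) := by
      rw [Real.rpow_def_of_pos hL0]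
      apply Real.exp_le_exp.2
      rw [hW]
      have h2 : e ^ 2 ≤ lam ^ 2 := pow_le_pow_left₀ he.le hel 2
      have h3 : e ^ 2 * e ^ 2 * (Real.log L / (4 * K)) ≤ e ^ 2 * lam ^ 2 * (Real.log L / (4 * K)) :=
        mul_le_mul_of_nonneg_right (mul_le_mul_of_nonneg_left h2 (by positivity)) (by positivity)
      have h4 : Real.log L * c2 ≤ Real.log L * (e ^ 4 / (4 * K)) := mul_le_mul_of_nonneg_left hc2e hlL.le
      have h5 : Real.log L * (e ^ 4 / (4 * K)) = e ^ 2 * e ^ 2 * (Real.log L / (4 * K)) := by ring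
      have h6 : e ^ 2 * lam ^ 2 * (Real.log L / (2 * K)) / 2 = e ^ 2 * lam ^ 2 * (Real.log L / (4 * K)) := by
        field_simp
        ring
      rw [h6]
      linarith
    have h2 : L ^ (-c1) ≤ L ^ (-c2) := Real.rpow_le_rpow_of_exponent_le hL1 (by linarith)
    have h3 : (J.card : ℝ) * η ≤ K * Ce * L ^ (-c2) := by
      calc (J.card : ℝ) * η ≤ K * (Ce * L ^ (-c2)) := by
            apply mul_le_mul hcardK _ hη0 hK0.le
            rw [hη]
            exact mul_le_mul_of_nonneg_left h2 hCe0.le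
        _ = _ := by ring
    have h4 : η' ≤ Cp * L ^ (-c2) := by rw [hη']; exact mul_le_mul_of_nonneg_left h2 hCp0.le
    have h5 : (J.card : ℝ) * Real.exp (-(e ^ 2 * lam ^ 2 * Wb n q L / 2)) ≤ K * L ^ (-c2) :=
      mul_le_mul hcardK h1 (Real.exp_pos _).le hK0.le
    calc _ ≤ 200 * (Cp * L ^ (-c2) + K * Ce * L ^ (-c2) + K * L ^ (-c2)) := by linarith
      _ = 200 * (Cp + K * Ce + K) * L ^ (-c2) := by ring
      _ ≤ Cf * L ^ (-c2) := mul_le_mul_of_nonneg_right hCbig (by positivity)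
  · have htS : t ∉ S := fun h => htE ⟨h, ht⟩
    rw [hS] at htS
    simp only [Set.mem_ofPred_eq, not_le] at htS
    -- the good points are high
    have hsub : (G.filter fun x => t ∈ Gd J D ((1 - e) * lam * Wb n q L) ((1 + e) * lam * Wb n q L) x) ⊆
        (Finset.Icc ⌈a⌉ ⌊b⌋).filter fun i : ℤ =>
          (1 - e) * lam * ((JJ n q : ℝ) - 4) / (2 * Real.pi * (n * q)) * Real.log L ≤ σ * Sm n q T L t i := by
      intro x hx
      rw [Finset.mem_filter] at hx ⊢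
      rw [← hG]
      refine ⟨hx.1, ?_⟩
      have h1 : ∑ j ∈ J, (1 - e) * lam * Wb n q L ≤ ∑ j ∈ J, D j x t := Finset.sum_le_sum fun j hj => (hx.2 j hj).1
      rw [Finset.sum_const, nsmul_eq_mul, hcard, hD] at h1
      simp only at h1
      rw [← Finset.mul_sum] at h1
      have h2 : ∑ j ∈ J, DD n T L (lev n q T L j) t x = Sm n q T L t x := by
        rw [hJ]
        rfl
      rw [h2, hW] at h1
      have h3 : (1 - e) * lam * ((JJ n q : ℝ) - 4) / (2 * Real.pi * (n * q)) * Real.log L =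
          ((JJ n q : ℝ) - 4) * ((1 - e) * lam * (Real.log L / (2 * K))) / Real.pi := by
        rw [← hK]
        field_simp
      rw [h3, div_le_iff₀ hpi]
      calc _ ≤ σ * Real.pi * Sm n q T L t x := h1
        _ = _ := by ring
    have h1 : ((G.filter fun x => t ∈ Gd J D ((1 - e) * lam * Wb n q L) ((1 + e) * lam * Wb n q L) x).card : ℝ) ≤
        (((Finset.Icc ⌈a⌉ ⌊b⌋).filter fun i : ℤ =>
          (1 - e) * lam * ((JJ n q : ℝ) - 4) / (2 * Real.pi * (n * q)) * Real.log L ≤ σ * Sm n q T L t i).card : ℝ) := by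
      exact_mod_cast Finset.card_le_card hsub
    have h2 : Real.exp (-((1 + 3 * e) * lam ^ 2 * Real.log L / 4)) ≤ Real.exp (-(lam ^ 2 * J.card * Wb n q L * (1 / 2 + e))) := by
      apply Real.exp_le_exp.2
      rw [hW]
      have h3 : lam ^ 2 * J.card * (Real.log L / (2 * K)) * (1 / 2 + e) ≤ lam ^ 2 * K * (Real.log L / (2 * K)) * (1 / 2 + e) := by
        gcongr
      have h4 : lam ^ 2 * K * (Real.log L / (2 * K)) * (1 / 2 + e) = lam ^ 2 * Real.log L * (1 + 2 * e) / 4 := by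
        field_simp
        ring
      have h5 : 0 ≤ lam ^ 2 * Real.log L * e := by positivity
      have h6 : (1 + 3 * e) * lam ^ 2 * Real.log L / 4 = lam ^ 2 * Real.log L * (1 + 2 * e) / 4 + lam ^ 2 * Real.log L * e / 4 := by ring
      linarith
    calc L * Real.exp (-((1 + 3 * e) * lam ^ 2 * Real.log L / 4)) ≤ (8 * G.card) * Real.exp (-(lam ^ 2 * J.card * Wb n q L * (1 / 2 + e))) :=
        mul_le_mul (by linarith) h2 (Real.exp_pos _).le (by positivity)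
      _ = 32 * (G.card / 4 * Real.exp (-(lam ^ 2 * J.card * Wb n q L * (1 / 2 + e)))) := by ring
      _ ≤ 32 * (((Finset.Icc ⌈a⌉ ⌊b⌋).filter fun i : ℤ =>
          (1 - e) * lam * ((JJ n q : ℝ) - 4) / (2 * Real.pi * (n * q)) * Real.log L ≤ σ * Sm n q T L t i).card : ℝ) :=
        mul_le_mul_of_nonneg_left (htS.le.trans h1) (by norm_num)
      _ ≤ _ := mul_le_mul_of_nonneg_right (by linarith) (Nat.cast_nonneg _)

end Pool.Agent.Helper82.OR
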