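import Mathlib

/-!
# OR, block AS: the second moment of a branching random walk, in an abstract form

`D j x`, `j ∈ J` the levels, `x ∈ G` the points; on the set `A` the exponential moments of all linear forms of one or two
points are those of Gaussian variables with variances `v j` and covariances `c j x y`. A point is good at `t` if
`(1 - e) λ W ≤ D j x t ≤ (1 + e) λ W` for all levels.
-/

set_option autoImplicit false
open MeasureTheory Set Finset

namespace Pool.Agent.Helper82.OR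

variable {Ω ι : Type*}

/-- a linear form of two points -/
noncomputable def Fm (J : Finset ℕ) (D : ℕ → ι → Ω → ℝ) (a b : ℕ → ℝ) (x y : ι) (t : Ω) : ℝ :=
  ∑ j ∈ J, (a j * D j x t + b j * D j y t)

/-- its variance -/
noncomputable def Vm (J : Finset ℕ) (v : ℕ → ℝ) (c : ℕ → ι → ι → ℝ) (a b : ℕ → ℝ) (x y : ι) : ℝ :=
  ∑ j ∈ J, (a j ^ 2 * v j + b j ^ 2 * v j + 2 * a j * b j * c j x y)

/-- the good set of a point -/
def Gd (J : Finset ℕ) (D : ℕ → ι → Ω → ℝ) (lo hi : ℝ) (x : ι) : Set Ω := {t | ∀ j ∈ J, lo ≤ D j x t ∧ D j x t ≤ hi}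

variable [MeasurableSpace Ω]

/-- the hypotheses -/
structure Hyp (μ : Measure Ω) (A : Set Ω) (J : Finset ℕ) (G : Finset ι) (D : ℕ → ι → Ω → ℝ) (v : ℕ → ℝ) (c : ℕ → ι → ι → ℝ)
    (τ W η H : ℝ) : Prop where
  mass : μ univ ≤ ENNReal.ofReal τ
  meas : MeasurableSet A
  Dmeas : ∀ j ∈ J, ∀ x ∈ G, Measurable (D j x)
  bd : ∀ t ∈ A, ∀ j ∈ J, ∀ x ∈ G, |D j x t| ≤ H
  tau : 0 < τ
  W0 : 0 ≤ W
  eta : 0 ≤ η
  neta : J.card * η ≤ 1 / 100
  Jne : 1 ≤ J.card
  var : ∀ j ∈ J, |v j - W| ≤ η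
  cov : ∀ j ∈ J, ∀ x ∈ G, ∀ y ∈ G, |c j x y| ≤ v j
  up : ∀ a b : ℕ → ℝ, (∀ j, |a j| ≤ 8) → (∀ j, |b j| ≤ 8) → ∀ x ∈ G, ∀ y ∈ G,
    ∫ t in A, Real.exp (Fm J D a b x y t) ∂μ ≤ (1 + η) * τ * Real.exp (Vm J v c a b x y / 2)
  low : ∀ a b : ℕ → ℝ, (∀ j, |a j| ≤ 8) → (∀ j, |b j| ≤ 8) → ∀ x ∈ G, ∀ y ∈ G,
    (1 - η) * τ * Real.exp (Vm J v c a b x y / 2) ≤ ∫ t in A, Real.exp (Fm J D a b x y t) ∂μ

section
variable {μ : Measure Ω} {A : Set Ω} {J : Finset ℕ} {G : Finset ι} {D : ℕ → ι → Ω → ℝ} {v : ℕ → ℝ} {c : ℕ → ι → ι → ℝ}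
  {τ W η H : ℝ}

lemma Hyp.eta1 (h : Hyp μ A J G D v c τ W η H) : η ≤ 1 / 100 := by
  have h1 : (1:ℝ) ≤ J.card := by exact_mod_cast h.Jne
  nlinarith [h.neta, h.eta]

lemma Hyp.fin (h : Hyp μ A J G D v c τ W η H) : IsFiniteMeasure μ :=
  ⟨h.mass.trans_lt ENNReal.ofReal_lt_top⟩

lemma Fm_meas (h : Hyp μ A J G D v c τ W η H) (a b : ℕ → ℝ) {x y : ι} (hx : x ∈ G) (hy : y ∈ G) : Measurable (Fm J D a b x y) := by
  unfold Fm
  apply Finset.measurable_sum
  intro j hj
  exact ((h.Dmeas j hj x hx).const_mul _).add ((h.Dmeas j hj y hy).const_mul _)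

lemma Fm_int (h : Hyp μ A J G D v c τ W η H) (a b : ℕ → ℝ) {x y : ι} (hx : x ∈ G) (hy : y ∈ G) :
    IntegrableOn (fun t => Real.exp (Fm J D a b x y t)) A μ := by
  have := h.fin
  apply Measure.integrableOn_of_bounded (M := Real.exp (∑ j ∈ J, (|a j| * H + |b j| * H))) (measure_ne_top _ _)
  · exact (Real.measurable_exp.comp (Fm_meas h a b hx hy)).aestronglyMeasurable
  · refine (ae_restrict_iff' h.meas).2 (ae_of_all _ fun t ht => ?_)
    rw [Real.norm_eq_abs, abs_of_pos (Real.exp_pos _)]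
    apply Real.exp_le_exp.2
    unfold Fm
    refine Finset.sum_le_sum fun j hj => ?_
    have h1 := h.bd t ht j hj x hx
    have h2 := h.bd t ht j hj y hy
    have h3 : a j * D j x t ≤ |a j| * H := (le_abs_self _).trans (by rw [abs_mul]; exact mul_le_mul_of_nonneg_left h1 (abs_nonneg _))
    have h4 : b j * D j y t ≤ |b j| * H := (le_abs_self _).trans (by rw [abs_mul]; exact mul_le_mul_of_nonneg_left h2 (abs_nonneg _))
    linarith

lemma Gd_meas (h : Hyp μ A J G D v c τ W η H) (lo hi : ℝ) {x : ι} (hx : x ∈ G) : MeasurableSet (Gd J D lo hi x) := by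
  have : Gd J D lo hi x = ⋂ j ∈ J, (D j x) ⁻¹' (Icc lo hi) := by
    ext t
    simp only [Gd, Set.mem_ofPred_eq, Set.mem_iInter, Set.mem_preimage, Set.mem_Icc]
  rw [this]
  exact MeasurableSet.biInter (Finset.countable_toSet J) fun j hj => (h.Dmeas j hj x hx) measurableSet_Icc

/-- (E1): one point -/
lemma one_low (h : Hyp μ A J G D v c τ W η H) {lam e : ℝ} (hl : 0 < lam) (hl2 : lam ≤ 2) (he : 0 < e) (he4 : e ≤ 1 / 4)
    {x : ι} (hx : x ∈ G) :
    τ * Real.exp (lam ^ 2 * (∑ j ∈ J, v j) / 2) * (1 - η - 4 * J.card * Real.exp (-(e ^ 2 * lam ^ 2 * W / 2))) ≤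
      ∫ t in A ∩ Gd J D ((1 - e) * lam * W) ((1 + e) * lam * W) x, Real.exp (Fm J D (fun _ => lam) (fun _ => 0) x x t) ∂μ := by
  classical
  have := h.fin
  have hη1 := h.eta1
  have hη0 := h.eta
  have hτ := h.tau
  have hW := h.W0
  obtain ⟨ap, hap⟩ : ∃ ap : ℕ → ℕ → ℝ, ap = fun i j => if j = i then lam + e * lam else lam := ⟨_, rfl⟩
  obtain ⟨am, ham⟩ : ∃ am : ℕ → ℕ → ℝ, am = fun i j => if j = i then lam - e * lam else lam := ⟨_, rfl⟩
  obtain ⟨kp, hkp⟩ : ∃ kp, kp = Real.exp (-(e * lam * ((1 + e) * lam * W))) := ⟨_, rfl⟩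
  obtain ⟨km, hkm⟩ : ∃ km, km = Real.exp (e * lam * ((1 - e) * lam * W)) := ⟨_, rfl⟩
  obtain ⟨q, hq⟩ : ∃ q, q = Real.exp (-(e ^ 2 * lam ^ 2 * W / 2)) := ⟨_, rfl⟩
  obtain ⟨E, hE⟩ : ∃ E, E = Real.exp (lam ^ 2 * (∑ j ∈ J, v j) / 2) := ⟨_, rfl⟩
  have hE0 : 0 < E := by rw [hE]; exact Real.exp_pos _
  have hq0 : 0 < q := by rw [hq]; exact Real.exp_pos _
  have hlb : ∀ j : ℕ, |(fun _ : ℕ => lam) j| ≤ 8 := fun j => by
    simp only
    rw [abs_of_pos hl]; linarith
  have h0b : ∀ j : ℕ, |(fun _ : ℕ => (0:ℝ)) j| ≤ 8 := fun j => by simp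
  have hel : e * lam ≤ 1 / 2 := by nlinarith
  have hel0 : 0 < e * lam := by positivity
  have hapb : ∀ i j : ℕ, |ap i j| ≤ 8 := fun i j => by
    rw [hap]
    simp only
    split_ifs
    · rw [abs_of_pos (by linarith)]; linarith
    · rw [abs_of_pos hl]; linarith
  have hamb : ∀ i j : ℕ, |am i j| ≤ 8 := fun i j => by
    rw [ham]
    simp only
    split_ifs
    · rw [abs_of_pos (by nlinarith)]; linarith
    · rw [abs_of_pos hl]; linarith
  -- forms
  have hFp : ∀ i ∈ J, ∀ t, Fm J D (ap i) (fun _ => 0) x x t = Fm J D (fun _ => lam) (fun _ => 0) x x t + e * lam * D i x t := by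
    intro i hi t
    unfold Fm
    rw [← Finset.add_sum_erase J _ hi, ← Finset.add_sum_erase J (fun j => (fun _ : ℕ => lam) j * D j x t + (fun _ : ℕ => (0:ℝ)) j * D j x t) hi]
    have : ∑ j ∈ J.erase i, (ap i j * D j x t + (fun _ : ℕ => (0:ℝ)) j * D j x t) =
        ∑ j ∈ J.erase i, ((fun _ : ℕ => lam) j * D j x t + (fun _ : ℕ => (0:ℝ)) j * D j x t) := by
      refine Finset.sum_congr rfl fun j hj => ?_
      rw [hap]
      simp only
      rw [if_neg (Finset.ne_of_mem_erase hj)]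
    rw [this, hap]
    simp only [if_pos]
    ring
  have hFm : ∀ i ∈ J, ∀ t, Fm J D (am i) (fun _ => 0) x x t = Fm J D (fun _ => lam) (fun _ => 0) x x t - e * lam * D i x t := by
    intro i hi t
    unfold Fm
    rw [← Finset.add_sum_erase J _ hi, ← Finset.add_sum_erase J (fun j => (fun _ : ℕ => lam) j * D j x t + (fun _ : ℕ => (0:ℝ)) j * D j x t) hi]
    have : ∑ j ∈ J.erase i, (am i j * D j x t + (fun _ : ℕ => (0:ℝ)) j * D j x t) =
        ∑ j ∈ J.erase i, ((fun _ : ℕ => lam) j * D j x t + (fun _ : ℕ => (0:ℝ)) j * D j x t) := by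
      refine Finset.sum_congr rfl fun j hj => ?_
      rw [ham]
      simp only
      rw [if_neg (Finset.ne_of_mem_erase hj)]
    rw [this, ham]
    simp only [if_pos]
    ring
  -- variances
  have hVg : ∀ a : ℕ → ℝ, Vm J v c a (fun _ => 0) x x = ∑ j ∈ J, a j ^ 2 * v j := by
    intro a
    unfold Vm
    refine Finset.sum_congr rfl fun j _ => ?_
    ring
  have hV0 : Vm J v c (fun _ => lam) (fun _ => 0) x x = lam ^ 2 * ∑ j ∈ J, v j := by
    rw [hVg, Finset.mul_sum]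
  have hVp : ∀ i ∈ J, Vm J v c (ap i) (fun _ => 0) x x = lam ^ 2 * (∑ j ∈ J, v j) + ((lam + e * lam) ^ 2 - lam ^ 2) * v i := by
    intro i hi
    rw [hVg, Finset.mul_sum, ← Finset.add_sum_erase J _ hi, ← Finset.add_sum_erase J (fun j => lam ^ 2 * v j) hi]
    have : ∑ j ∈ J.erase i, ap i j ^ 2 * v j = ∑ j ∈ J.erase i, lam ^ 2 * v j := by
      refine Finset.sum_congr rfl fun j hj => ?_
      rw [hap]
      simp only
      rw [if_neg (Finset.ne_of_mem_erase hj)]
    rw [this, hap]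
    simp only [if_pos]
    ring
  have hVm : ∀ i ∈ J, Vm J v c (am i) (fun _ => 0) x x = lam ^ 2 * (∑ j ∈ J, v j) + ((lam - e * lam) ^ 2 - lam ^ 2) * v i := by
    intro i hi
    rw [hVg, Finset.mul_sum, ← Finset.add_sum_erase J _ hi, ← Finset.add_sum_erase J (fun j => lam ^ 2 * v j) hi]
    have : ∑ j ∈ J.erase i, am i j ^ 2 * v j = ∑ j ∈ J.erase i, lam ^ 2 * v j := by
      refine Finset.sum_congr rfl fun j hj => ?_
      rw [ham]
      simp only
      rw [if_neg (Finset.ne_of_mem_erase hj)]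
    rw [this, ham]
    simp only [if_pos]
    ring
  -- the bound of one bad term
  have hexp : Real.exp (2 * η) ≤ 1 + 4 * η := by
    have h1 := Real.abs_exp_sub_one_le (x := 2 * η) (by rw [abs_of_nonneg (by linarith)]; linarith)
    rw [abs_of_nonneg (show 0 ≤ 2 * η by linarith)] at h1
    have := (abs_le.1 h1).2
    linarith
  have h2e : (1 + η) * Real.exp (2 * η) ≤ 2 := by nlinarith
  have hbp : ∀ i ∈ J, kp * ∫ t in A, Real.exp (Fm J D (ap i) (fun _ => 0) x x t) ∂μ ≤ 2 * (τ * E * q) := by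
    intro i hi
    have h1 := h.up (ap i) (fun _ => 0) (hapb i) h0b x hx x hx
    have hkp0 : 0 < kp := by rw [hkp]; exact Real.exp_pos _
    refine (mul_le_mul_of_nonneg_left h1 hkp0.le).trans ?_
    rw [hVp i hi]
    have hv := abs_le.1 (h.var i hi)
    have h3 : -(e * lam * ((1 + e) * lam * W)) + (lam ^ 2 * (∑ j ∈ J, v j) + ((lam + e * lam) ^ 2 - lam ^ 2) * v i) / 2 ≤
        lam ^ 2 * (∑ j ∈ J, v j) / 2 + (-(e ^ 2 * lam ^ 2 * W / 2)) + 2 * η := by
      have h4 : ((lam + e * lam) ^ 2 - lam ^ 2) / 2 = e * lam ^ 2 + e ^ 2 * lam ^ 2 / 2 := by ring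
      have h5 : 0 ≤ e * lam ^ 2 + e ^ 2 * lam ^ 2 / 2 := by positivity
      have h6 : e * lam ^ 2 + e ^ 2 * lam ^ 2 / 2 ≤ 2 := by nlinarith
      have h7 : (e * lam ^ 2 + e ^ 2 * lam ^ 2 / 2) * v i ≤ (e * lam ^ 2 + e ^ 2 * lam ^ 2 / 2) * (W + η) :=
        mul_le_mul_of_nonneg_left (by linarith [hv.2]) h5
      have h8 : (e * lam ^ 2 + e ^ 2 * lam ^ 2 / 2) * η ≤ 2 * η := mul_le_mul_of_nonneg_right h6 hη0
      nlinarith
    calc kp * ((1 + η) * τ * Real.exp ((lam ^ 2 * (∑ j ∈ J, v j) + ((lam + e * lam) ^ 2 - lam ^ 2) * v i) / 2)) =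
        (1 + η) * τ * Real.exp (-(e * lam * ((1 + e) * lam * W)) + (lam ^ 2 * (∑ j ∈ J, v j) + ((lam + e * lam) ^ 2 - lam ^ 2) * v i) / 2) := by
          rw [Real.exp_add, ← hkp]; ring
      _ ≤ (1 + η) * τ * Real.exp (lam ^ 2 * (∑ j ∈ J, v j) / 2 + (-(e ^ 2 * lam ^ 2 * W / 2)) + 2 * η) :=
          mul_le_mul_of_nonneg_left (Real.exp_le_exp.2 h3) (by positivity)
      _ = ((1 + η) * Real.exp (2 * η)) * (τ * E * q) := by rw [Real.exp_add, Real.exp_add, ← hE, ← hq]; ring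
      _ ≤ 2 * (τ * E * q) := mul_le_mul_of_nonneg_right h2e (by positivity)
  have hbm : ∀ i ∈ J, km * ∫ t in A, Real.exp (Fm J D (am i) (fun _ => 0) x x t) ∂μ ≤ 2 * (τ * E * q) := by
    intro i hi
    have h1 := h.up (am i) (fun _ => 0) (hamb i) h0b x hx x hx
    have hkm0 : 0 < km := by rw [hkm]; exact Real.exp_pos _
    refine (mul_le_mul_of_nonneg_left h1 hkm0.le).trans ?_
    rw [hVm i hi]
    have hv := abs_le.1 (h.var i hi)
    have h3 : (e * lam * ((1 - e) * lam * W)) + (lam ^ 2 * (∑ j ∈ J, v j) + ((lam - e * lam) ^ 2 - lam ^ 2) * v i) / 2 ≤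
        lam ^ 2 * (∑ j ∈ J, v j) / 2 + (-(e ^ 2 * lam ^ 2 * W / 2)) + 2 * η := by
      have h4 : ((lam - e * lam) ^ 2 - lam ^ 2) / 2 = -(e * lam ^ 2 - e ^ 2 * lam ^ 2 / 2) := by ring
      have h5 : 0 ≤ e * lam ^ 2 - e ^ 2 * lam ^ 2 / 2 := by nlinarith [mul_pos he (pow_pos hl 2)]
      have h6 : e * lam ^ 2 - e ^ 2 * lam ^ 2 / 2 ≤ 2 := by nlinarith [sq_nonneg (e * lam)]
      have h7 : (e * lam ^ 2 - e ^ 2 * lam ^ 2 / 2) * (W - η) ≤ (e * lam ^ 2 - e ^ 2 * lam ^ 2 / 2) * v i :=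
        mul_le_mul_of_nonneg_left (by linarith [hv.1]) h5
      have h8 : (e * lam ^ 2 - e ^ 2 * lam ^ 2 / 2) * η ≤ 2 * η := mul_le_mul_of_nonneg_right h6 hη0
      nlinarith
    calc km * ((1 + η) * τ * Real.exp ((lam ^ 2 * (∑ j ∈ J, v j) + ((lam - e * lam) ^ 2 - lam ^ 2) * v i) / 2)) =
        (1 + η) * τ * Real.exp ((e * lam * ((1 - e) * lam * W)) + (lam ^ 2 * (∑ j ∈ J, v j) + ((lam - e * lam) ^ 2 - lam ^ 2) * v i) / 2) := by
          rw [Real.exp_add, ← hkm]; ring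
      _ ≤ (1 + η) * τ * Real.exp (lam ^ 2 * (∑ j ∈ J, v j) / 2 + (-(e ^ 2 * lam ^ 2 * W / 2)) + 2 * η) :=
          mul_le_mul_of_nonneg_left (Real.exp_le_exp.2 h3) (by positivity)
      _ = ((1 + η) * Real.exp (2 * η)) * (τ * E * q) := by rw [Real.exp_add, Real.exp_add, ← hE, ← hq]; ring
      _ ≤ 2 * (τ * E * q) := mul_le_mul_of_nonneg_right h2e (by positivity)
  -- pointwise
  obtain ⟨g, hg⟩ : ∃ g, g = Gd J D ((1 - e) * lam * W) ((1 + e) * lam * W) x := ⟨_, rfl⟩
  have hgm : MeasurableSet g := by rw [hg]; exact Gd_meas h _ _ hx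
  have hpt : ∀ t ∈ A, Real.exp (Fm J D (fun _ => lam) (fun _ => 0) x x t) -
      ∑ i ∈ J, (kp * Real.exp (Fm J D (ap i) (fun _ => 0) x x t) + km * Real.exp (Fm J D (am i) (fun _ => 0) x x t)) ≤
      g.indicator (fun t => Real.exp (Fm J D (fun _ => lam) (fun _ => 0) x x t)) t := by
    intro t _
    have hkp0 : 0 < kp := by rw [hkp]; exact Real.exp_pos _
    have hkm0 : 0 < km := by rw [hkm]; exact Real.exp_pos _
    by_cases hgt : t ∈ g
    · rw [Set.indicator_of_mem hgt]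
      have : 0 ≤ ∑ i ∈ J, (kp * Real.exp (Fm J D (ap i) (fun _ => 0) x x t) + km * Real.exp (Fm J D (am i) (fun _ => 0) x x t)) :=
        Finset.sum_nonneg fun i _ => by positivity
      linarith
    · rw [Set.indicator_of_notMem hgt]
      rw [hg] at hgt
      simp only [Gd, Set.mem_ofPred_eq, not_forall] at hgt
      obtain ⟨i, hi, hni⟩ := hgt
      have h1 : Real.exp (Fm J D (fun _ => lam) (fun _ => 0) x x t) ≤
          kp * Real.exp (Fm J D (ap i) (fun _ => 0) x x t) + km * Real.exp (Fm J D (am i) (fun _ => 0) x x t) := by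
        rw [hFp i hi, hFm i hi, hkp, hkm, ← Real.exp_add, ← Real.exp_add]
        rw [not_and_or, not_le, not_le] at hni
        rcases hni with hni | hni
        · have h2 : Real.exp (Fm J D (fun _ => lam) (fun _ => 0) x x t) ≤
              Real.exp (e * lam * ((1 - e) * lam * W) + (Fm J D (fun _ => lam) (fun _ => 0) x x t - e * lam * D i x t)) := by
            apply Real.exp_le_exp.2
            have := mul_le_mul_of_nonneg_left hni.le hel0.le
            linarith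
          have h3 := Real.exp_pos (-(e * lam * ((1 + e) * lam * W)) + (Fm J D (fun _ => lam) (fun _ => 0) x x t + e * lam * D i x t))
          linarith
        · have h2 : Real.exp (Fm J D (fun _ => lam) (fun _ => 0) x x t) ≤
              Real.exp (-(e * lam * ((1 + e) * lam * W)) + (Fm J D (fun _ => lam) (fun _ => 0) x x t + e * lam * D i x t)) := by
            apply Real.exp_le_exp.2
            have := mul_le_mul_of_nonneg_left hni.le hel0.le
            linarith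
          have h3 := Real.exp_pos (e * lam * ((1 - e) * lam * W) + (Fm J D (fun _ => lam) (fun _ => 0) x x t - e * lam * D i x t))
          linarith
      have h2 := Finset.single_le_sum (f := fun i => kp * Real.exp (Fm J D (ap i) (fun _ => 0) x x t) +
        km * Real.exp (Fm J D (am i) (fun _ => 0) x x t)) (fun i _ => by positivity) hi
      simp only at h2
      linarith
  have hi0 := Fm_int h (fun _ => lam) (fun _ => 0) hx hx
  have hip : ∀ i ∈ J, Integrable (fun t => kp * Real.exp (Fm J D (ap i) (fun _ => 0) x x t)) (μ.restrict A) := fun i _ =>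
    (Fm_int h (ap i) (fun _ => 0) hx hx).const_mul kp
  have him : ∀ i ∈ J, Integrable (fun t => km * Real.exp (Fm J D (am i) (fun _ => 0) x x t)) (μ.restrict A) := fun i _ =>
    (Fm_int h (am i) (fun _ => 0) hx hx).const_mul km
  have hsum : Integrable (fun t => ∑ i ∈ J, (kp * Real.exp (Fm J D (ap i) (fun _ => 0) x x t) +
      km * Real.exp (Fm J D (am i) (fun _ => 0) x x t))) (μ.restrict A) :=
    integrable_finsetSum J fun i hi => (hip i hi).add (him i hi)
  have h1 : ∫ t in A, (Real.exp (Fm J D (fun _ => lam) (fun _ => 0) x x t) -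
      ∑ i ∈ J, (kp * Real.exp (Fm J D (ap i) (fun _ => 0) x x t) + km * Real.exp (Fm J D (am i) (fun _ => 0) x x t))) ∂μ ≤
      ∫ t in A, g.indicator (fun t => Real.exp (Fm J D (fun _ => lam) (fun _ => 0) x x t)) t ∂μ :=
    setIntegral_mono_on (hi0.sub hsum) (hi0.indicator hgm) h.meas (fun t ht => hpt t ht)
  have hsum2 : ∫ t in A, ∑ i ∈ J, (kp * Real.exp (Fm J D (ap i) (fun _ => 0) x x t) +
      km * Real.exp (Fm J D (am i) (fun _ => 0) x x t)) ∂μ = ∑ i ∈ J, ∫ t in A, (kp * Real.exp (Fm J D (ap i) (fun _ => 0) x x t) +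
      km * Real.exp (Fm J D (am i) (fun _ => 0) x x t)) ∂μ :=
    integral_finsetSum J (fun i hi => (hip i hi).add (him i hi))
  rw [integral_sub hi0 hsum, hsum2, setIntegral_indicator hgm] at h1
  have h2 : ∑ i ∈ J, ∫ t in A, (kp * Real.exp (Fm J D (ap i) (fun _ => 0) x x t) + km * Real.exp (Fm J D (am i) (fun _ => 0) x x t)) ∂μ ≤
      J.card * (4 * (τ * E * q)) := by
    have h3 : ∀ i ∈ J, ∫ t in A, (kp * Real.exp (Fm J D (ap i) (fun _ => 0) x x t) + km * Real.exp (Fm J D (am i) (fun _ => 0) x x t)) ∂μ ≤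
        4 * (τ * E * q) := by
      intro i hi
      rw [integral_add (hip i hi) (him i hi), integral_const_mul, integral_const_mul]
      linarith [hbp i hi, hbm i hi]
    refine (Finset.sum_le_sum h3).trans ?_
    rw [Finset.sum_const, nsmul_eq_mul]
  have h3 := h.low (fun _ => lam) (fun _ => 0) hlb h0b x hx x hx
  rw [hV0] at h3
  rw [← hE] at h3 ⊢
  rw [← hg, ← hq]
  have h4 : τ * E * (1 - η - 4 * J.card * q) = (1 - η) * τ * E - J.card * (4 * (τ * E * q)) := by ring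
  rw [h4]
  linarith

/-- (E2): two points -/
lemma two_up (h : Hyp μ A J G D v c τ W η H) {lam e : ℝ} (hl : 0 < lam) (hl2 : lam ≤ 2) (he : 0 < e) (he4 : e ≤ 1 / 4)
    {J1 : Finset ℕ} (hJ1 : J1 ⊆ J) {x y : ι} (hx : x ∈ G) (hy : y ∈ G) (hc : ∀ j ∈ J \ J1, |c j x y| ≤ η) :
    ∫ t in A ∩ (Gd J D ((1 - e) * lam * W) ((1 + e) * lam * W) x ∩ Gd J D ((1 - e) * lam * W) ((1 + e) * lam * W) y),
      Real.exp (Fm J D (fun _ => lam) (fun _ => lam) x y t) ∂μ ≤
      (1 + η) * τ * Real.exp (lam ^ 2 * (∑ j ∈ J, v j) + J1.card * (lam ^ 2 * W * (1 / 2 + e)) + 8 * (J.card * η)) := by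
  classical
  have := h.fin
  have hη1 := h.eta1
  have hη0 := h.eta
  have hτ := h.tau
  have hW := h.W0
  obtain ⟨a, ha⟩ : ∃ a : ℕ → ℝ, a = fun j => if j ∈ J1 then lam * (1 + e) / 2 else lam := ⟨_, rfl⟩
  have hab : ∀ j, |a j| ≤ 8 := fun j => by
    rw [ha]
    simp only
    split_ifs
    · rw [abs_of_pos (by positivity)]; nlinarith
    · rw [abs_of_pos hl]; linarith
  obtain ⟨g, hg⟩ : ∃ g, g = Gd J D ((1 - e) * lam * W) ((1 + e) * lam * W) x ∩ Gd J D ((1 - e) * lam * W) ((1 + e) * lam * W) y := ⟨_, rfl⟩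
  have hgm : MeasurableSet g := by rw [hg]; exact (Gd_meas h _ _ hx).inter (Gd_meas h _ _ hy)
  rw [← hg]
  -- pointwise
  obtain ⟨B, hB⟩ : ∃ B, B = J1.card * ((1 - e ^ 2) * lam ^ 2 * W) := ⟨_, rfl⟩
  have hpt : ∀ t ∈ A ∩ g, Real.exp (Fm J D (fun _ => lam) (fun _ => lam) x y t) ≤ Real.exp B * Real.exp (Fm J D a a x y t) := by
    intro t ht
    rw [← Real.exp_add]
    apply Real.exp_le_exp.2
    have h1 : Fm J D (fun _ => lam) (fun _ => lam) x y t = (∑ j ∈ J, if j ∈ J1 then (1 - e) * lam / 2 * (D j x t + D j y t) else 0) +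
        Fm J D a a x y t := by
      unfold Fm
      rw [← Finset.sum_add_distrib]
      refine Finset.sum_congr rfl fun j _ => ?_
      rw [ha]
      simp only
      split_ifs <;> ring
    rw [h1]
    have h2 : (∑ j ∈ J, if j ∈ J1 then (1 - e) * lam / 2 * (D j x t + D j y t) else 0) ≤ B := by
      rw [← Finset.sum_filter, hB]
      have h3 : J.filter (fun j => j ∈ J1) = J1 := by
        ext j
        rw [Finset.mem_filter]
        exact ⟨fun h => h.2, fun h => ⟨hJ1 h, h⟩⟩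
      rw [h3]
      have h4 : ∀ j ∈ J1, (1 - e) * lam / 2 * (D j x t + D j y t) ≤ (1 - e ^ 2) * lam ^ 2 * W := by
        intro j hj
        rw [hg] at ht
        have hgx := (ht.2.1 j (hJ1 hj)).2
        have hgy := (ht.2.2 j (hJ1 hj)).2
        have h5 : 0 ≤ (1 - e) * lam / 2 := by
          have : 0 ≤ 1 - e := by linarith
          positivity
        calc (1 - e) * lam / 2 * (D j x t + D j y t) ≤ (1 - e) * lam / 2 * (2 * ((1 + e) * lam * W)) :=
            mul_le_mul_of_nonneg_left (by linarith) h5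
          _ = _ := by ring
      refine (Finset.sum_le_sum h4).trans ?_
      rw [Finset.sum_const, nsmul_eq_mul]
    linarith
  have hi0 := Fm_int h (fun _ => lam) (fun _ => lam) hx hy
  have hi1 := Fm_int h a a hx hy
  have h1 : ∫ t in A ∩ g, Real.exp (Fm J D (fun _ => lam) (fun _ => lam) x y t) ∂μ ≤
      ∫ t in A ∩ g, Real.exp B * Real.exp (Fm J D a a x y t) ∂μ :=
    setIntegral_mono_on (hi0.mono_set inter_subset_left) ((hi1.mono_set inter_subset_left).const_mul _)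
      (h.meas.inter hgm) hpt
  have h2 : ∫ t in A ∩ g, Real.exp B * Real.exp (Fm J D a a x y t) ∂μ ≤ Real.exp B * ∫ t in A, Real.exp (Fm J D a a x y t) ∂μ := by
    rw [integral_const_mul]
    apply mul_le_mul_of_nonneg_left _ (Real.exp_pos _).le
    exact setIntegral_mono_set hi1 (ae_of_all _ fun t => (Real.exp_pos _).le) (ae_of_all _ fun t ht => ht.1)
  have h3 := h.up a a hab hab x hx y hy
  have h4 : Vm J v c a a x y / 2 ≤ lam ^ 2 * (∑ j ∈ J, v j) + J1.card * (lam ^ 2 * ((1 + e) ^ 2 / 2 - 1) * W) + 8 * (J.card * η) := by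
    have h5 : ∀ j ∈ J, (a j ^ 2 * v j + a j ^ 2 * v j + 2 * a j * a j * c j x y) / 2 ≤
        lam ^ 2 * v j + (if j ∈ J1 then lam ^ 2 * ((1 + e) ^ 2 / 2 - 1) * W else 0) + 8 * η := by
      intro j hj
      have hv := abs_le.1 (h.var j hj)
      have hcv := abs_le.1 (h.cov j hj x hx y hy)
      by_cases hj1 : j ∈ J1
      · have e1 : a j = lam * (1 + e) / 2 := by rw [ha]; simp only; rw [if_pos hj1]
        rw [e1, if_pos hj1]
        have h6 : (lam * (1 + e) / 2) ^ 2 * c j x y ≤ (lam * (1 + e) / 2) ^ 2 * v j := mul_le_mul_of_nonneg_left hcv.2 (by positivity)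
        have h7 : (1 + e) ^ 2 / 2 - 1 ≤ 0 := by nlinarith
        have h8 : -1 ≤ (1 + e) ^ 2 / 2 - 1 := by nlinarith [sq_nonneg (1 + e)]
        have h9 : lam ^ 2 * ((1 + e) ^ 2 / 2 - 1) * v j ≤ lam ^ 2 * ((1 + e) ^ 2 / 2 - 1) * (W - η) := by
          have : lam ^ 2 * ((1 + e) ^ 2 / 2 - 1) ≤ 0 := mul_nonpos_of_nonneg_of_nonpos (by positivity) h7
          nlinarith [hv.1]
        have h10 : -(lam ^ 2 * ((1 + e) ^ 2 / 2 - 1) * η) ≤ 8 * η := by
          have : lam ^ 2 ≤ 4 := by nlinarith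
          have h11 : -(lam ^ 2 * ((1 + e) ^ 2 / 2 - 1)) ≤ 4 := by nlinarith [sq_nonneg lam]
          nlinarith
        calc _ = (lam * (1 + e) / 2) ^ 2 * v j + (lam * (1 + e) / 2) ^ 2 * c j x y := by ring
          _ ≤ 2 * ((lam * (1 + e) / 2) ^ 2 * v j) := by linarith
          _ = lam ^ 2 * v j + lam ^ 2 * ((1 + e) ^ 2 / 2 - 1) * v j := by ring
          _ ≤ _ := by linarith
      · have e1 : a j = lam := by rw [ha]; simp only; rw [if_neg hj1]
        rw [e1, if_neg hj1]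
        have hcj := abs_le.1 (hc j (Finset.mem_sdiff.2 ⟨hj, hj1⟩))
        have h6 : lam ^ 2 * c j x y ≤ lam ^ 2 * η := mul_le_mul_of_nonneg_left hcj.2 (by positivity)
        have h7 : lam ^ 2 * η ≤ 8 * η := mul_le_mul_of_nonneg_right (by nlinarith) hη0
        calc _ = lam ^ 2 * v j + lam ^ 2 * c j x y := by ring
          _ ≤ _ := by linarith
    unfold Vm
    rw [Finset.sum_div]
    refine (Finset.sum_le_sum h5).trans ?_
    rw [Finset.sum_add_distrib, Finset.sum_add_distrib, ← Finset.mul_sum, ← Finset.sum_filter, Finset.sum_const, Finset.sum_const,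
      nsmul_eq_mul, nsmul_eq_mul]
    have h3 : J.filter (fun j => j ∈ J1) = J1 := by
      ext j
      rw [Finset.mem_filter]
      exact ⟨fun h => h.2, fun h => ⟨hJ1 h, h⟩⟩
    rw [h3]
    apply le_of_eq
    ring
  refine h1.trans (h2.trans ((mul_le_mul_of_nonneg_left h3 (Real.exp_pos _).le).trans ?_))
  rw [mul_left_comm, ← Real.exp_add]
  apply mul_le_mul_of_nonneg_left _ (by positivity)
  apply Real.exp_le_exp.2
  have h5 : (J1.card : ℝ) * ((1 - e ^ 2) * lam ^ 2 * W) + J1.card * (lam ^ 2 * ((1 + e) ^ 2 / 2 - 1) * W) ≤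
      J1.card * (lam ^ 2 * W * (1 / 2 + e)) := by
    have h6 : (J1.card : ℝ) * ((1 - e ^ 2) * lam ^ 2 * W) + J1.card * (lam ^ 2 * ((1 + e) ^ 2 / 2 - 1) * W) =
        J1.card * (lam ^ 2 * W * (1 / 2 + e)) - J1.card * (lam ^ 2 * W * (e ^ 2 / 2)) := by ring
    have h7 : 0 ≤ (J1.card : ℝ) * (lam ^ 2 * W * (e ^ 2 / 2)) := by positivity
    linarith
  rw [hB]
  linarith

/-- the statistic -/
noncomputable def Zs (A : Set Ω) (J : Finset ℕ) (G : Finset ι) (D : ℕ → ι → Ω → ℝ) (lam e W : ℝ) (t : Ω) : ℝ :=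
  ∑ x ∈ G, (A ∩ Gd J D ((1 - e) * lam * W) ((1 + e) * lam * W) x).indicator (fun t => Real.exp (Fm J D (fun _ => lam) (fun _ => 0) x x t)) t

omit [MeasurableSpace Ω] in
lemma Fm_zero (lam : ℝ) (x y z : ι) (t : Ω) : Fm J D (fun _ => lam) (fun _ => 0) x z t + Fm J D (fun _ => lam) (fun _ => 0) y z t =
    Fm J D (fun _ => lam) (fun _ => lam) x y t := by
  unfold Fm
  rw [← Finset.sum_add_distrib]
  refine Finset.sum_congr rfl fun j _ => ?_
  ring

omit [MeasurableSpace Ω] in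
lemma Fm_zero' (lam : ℝ) (x y z : ι) (t : Ω) : Fm J D (fun _ => lam) (fun _ => 0) x y t = Fm J D (fun _ => lam) (fun _ => 0) x z t := by
  unfold Fm
  refine Finset.sum_congr rfl fun j _ => ?_
  ring

open Classical in
/-- **AS**, abstract form -/
theorem brw (h : Hyp μ A J G D v c τ W η H) (hG : G.Nonempty) {lam e : ℝ} (hl : 0 < lam) (hl2 : lam ≤ 2) (he : 0 < e) (he4 : e ≤ 1 / 4)
    {J1 : ι → ι → Finset ℕ} (hJ1 : ∀ x ∈ G, ∀ y ∈ G, J1 x y ⊆ J) (hc : ∀ x ∈ G, ∀ y ∈ G, ∀ j ∈ J \ J1 x y, |c j x y| ≤ η)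
    {η' : ℝ} (hη' : 0 ≤ η') (hη1' : η' ≤ 1)
    (hpair : ∑ x ∈ G, ∑ y ∈ G, Real.exp ((J1 x y).card * (lam ^ 2 * W * (1 / 2 + e))) ≤ (1 + η') * (G.card : ℝ) ^ 2) :
    μ {t | ((G.filter fun x => t ∈ Gd J D ((1 - e) * lam * W) ((1 + e) * lam * W) x).card : ℝ) ≤
      G.card / 4 * Real.exp (-(lam ^ 2 * J.card * W * (1 / 2 + e)))} ≤
      ENNReal.ofReal (200 * (η' + J.card * η + J.card * Real.exp (-(e ^ 2 * lam ^ 2 * W / 2))) * τ) := by
  have := h.fin
  have hη1 := h.eta1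
  have hη0 := h.eta
  have hτ := h.tau
  have hW := h.W0
  have hneta := h.neta
  have hn1 : (1:ℝ) ≤ J.card := by exact_mod_cast h.Jne
  have hN1 : (1:ℝ) ≤ G.card := by exact_mod_cast hG.card_pos
  obtain ⟨n, hn⟩ : ∃ n : ℝ, n = J.card := ⟨_, rfl⟩
  obtain ⟨N, hN⟩ : ∃ N : ℝ, N = G.card := ⟨_, rfl⟩
  obtain ⟨q, hq⟩ : ∃ q, q = Real.exp (-(e ^ 2 * lam ^ 2 * W / 2)) := ⟨_, rfl⟩
  have hq0 : 0 < q := by rw [hq]; exact Real.exp_pos _
  obtain ⟨V1, hV1⟩ : ∃ V1, V1 = ∑ j ∈ J, v j := ⟨_, rfl⟩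
  obtain ⟨m, hm⟩ : ∃ m, m = N * Real.exp (lam ^ 2 * V1 / 2) := ⟨_, rfl⟩
  rw [← hn] at hneta hn1 ⊢
  rw [← hN] at hN1 hpair ⊢
  rw [← hq]
  have hm0 : 0 < m := by rw [hm]; positivity
  obtain ⟨g, hg⟩ : ∃ g : ι → Set Ω, g = fun x => A ∩ Gd J D ((1 - e) * lam * W) ((1 + e) * lam * W) x := ⟨_, rfl⟩
  have hgm : ∀ x ∈ G, MeasurableSet (g x) := fun x hx => by rw [hg]; exact h.meas.inter (Gd_meas h _ _ hx)
  obtain ⟨f, hf⟩ : ∃ f : ι → Ω → ℝ, f = fun x => (g x).indicator (fun t => Real.exp (Fm J D (fun _ => lam) (fun _ => 0) x x t)) := ⟨_, rfl⟩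
  have hZ : ∀ t, Zs A J G D lam e W t = ∑ x ∈ G, f x t := by
    intro t
    rw [hf, hg]
    rfl
  -- integrability
  have hfi : ∀ x ∈ G, Integrable (f x) μ := by
    intro x hx
    rw [hf]
    rw [integrable_indicator_iff (hgm x hx)]
    exact (Fm_int h _ _ hx hx).mono_set (by rw [hg]; exact inter_subset_left)
  have hff : ∀ x ∈ G, ∀ y ∈ G, ∀ t, f x t * f y t = (g x ∩ g y).indicator (fun t => Real.exp (Fm J D (fun _ => lam) (fun _ => lam) x y t)) t := by
    intro x _ y _ t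
    rw [hf]
    simp only [Set.indicator_apply, Set.mem_inter_iff]
    by_cases h1 : t ∈ g x <;> by_cases h2 : t ∈ g y
    · rw [if_pos h1, if_pos h2, if_pos ⟨h1, h2⟩, ← Real.exp_add, Fm_zero' lam y y x, Fm_zero lam x y x]
    · rw [if_neg h2, mul_zero, if_neg (fun h => h2 h.2)]
    · rw [if_neg h1, zero_mul, if_neg (fun h => h1 h.1)]
    · rw [if_neg h1, zero_mul, if_neg (fun h => h1 h.1)]
  have hffi : ∀ x ∈ G, ∀ y ∈ G, Integrable (fun t => f x t * f y t) μ := by
    intro x hx y hy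
    have : (fun t => f x t * f y t) = (g x ∩ g y).indicator (fun t => Real.exp (Fm J D (fun _ => lam) (fun _ => lam) x y t)) := by
      funext t
      exact hff x hx y hy t
    rw [this, integrable_indicator_iff ((hgm x hx).inter (hgm y hy))]
    exact (Fm_int h _ _ hx hy).mono_set (by rw [hg]; exact fun t ht => ht.1.1)
  have hZi : Integrable (Zs A J G D lam e W) μ := by
    have : Zs A J G D lam e W = fun t => ∑ x ∈ G, f x t := funext hZ
    rw [this]
    exact integrable_finsetSum G hfi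
  have hZ2 : ∀ t, Zs A J G D lam e W t ^ 2 = ∑ x ∈ G, ∑ y ∈ G, f x t * f y t := by
    intro t
    rw [hZ, sq, Finset.sum_mul_sum]
  have hZ2i : Integrable (fun t => Zs A J G D lam e W t ^ 2) μ := by
    simp_rw [hZ2]
    exact integrable_finsetSum G fun x hx => integrable_finsetSum G fun y hy => hffi x hx y hy
  -- first moment
  have h1 : m * τ * (1 - η - 4 * n * q) ≤ ∫ t, Zs A J G D lam e W t ∂μ := by
    have e1 : ∫ t, Zs A J G D lam e W t ∂μ = ∑ x ∈ G, ∫ t, f x t ∂μ := by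
      simp_rw [hZ]
      exact integral_finsetSum G hfi
    rw [e1]
    have e2 : ∀ x ∈ G, τ * Real.exp (lam ^ 2 * V1 / 2) * (1 - η - 4 * n * q) ≤ ∫ t, f x t ∂μ := by
      intro x hx
      have e3 := one_low h hl hl2 he he4 hx
      rw [← hV1, ← hn, ← hq] at e3
      rw [hf]
      simp only
      rw [integral_indicator (hgm x hx), hg]
      exact e3
    have e4 := Finset.sum_le_sum e2
    rw [Finset.sum_const, nsmul_eq_mul, ← hN] at e4
    refine le_trans (le_of_eq ?_) e4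
    rw [hm]
    ring
  -- second moment
  have h2 : ∫ t, Zs A J G D lam e W t ^ 2 ∂μ ≤ (1 + η) * Real.exp (8 * (n * η)) * (1 + η') * (τ * m ^ 2) := by
    have e1 : ∫ t, Zs A J G D lam e W t ^ 2 ∂μ = ∑ x ∈ G, ∑ y ∈ G, ∫ t, f x t * f y t ∂μ := by
      simp_rw [hZ2]
      rw [integral_finsetSum G fun x hx => integrable_finsetSum G fun y hy => hffi x hx y hy]
      exact Finset.sum_congr rfl fun x hx => integral_finsetSum G fun y hy => hffi x hx y hy
    rw [e1]
    have e2 : ∀ x ∈ G, ∀ y ∈ G, ∫ t, f x t * f y t ∂μ ≤ ((1 + η) * τ * Real.exp (lam ^ 2 * V1) * Real.exp (8 * (n * η))) *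
        Real.exp ((J1 x y).card * (lam ^ 2 * W * (1 / 2 + e))) := by
      intro x hx y hy
      simp_rw [hff x hx y hy]
      rw [integral_indicator ((hgm x hx).inter (hgm y hy))]
      have e3 := two_up h hl hl2 he he4 (hJ1 x hx y hy) hx hy (hc x hx y hy)
      have e4 : g x ∩ g y = A ∩ (Gd J D ((1 - e) * lam * W) ((1 + e) * lam * W) x ∩ Gd J D ((1 - e) * lam * W) ((1 + e) * lam * W) y) := by
        rw [hg]
        ext t
        simp only [Set.mem_inter_iff]
        tauto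
      rw [e4]
      refine e3.trans (le_of_eq ?_)
      rw [← hV1, ← hn, Real.exp_add, Real.exp_add]
      ring
    refine (Finset.sum_le_sum fun x hx => Finset.sum_le_sum fun y hy => e2 x hx y hy).trans ?_
    have e3 : ∑ x ∈ G, ∑ y ∈ G, ((1 + η) * τ * Real.exp (lam ^ 2 * V1) * Real.exp (8 * (n * η))) *
        Real.exp ((J1 x y).card * (lam ^ 2 * W * (1 / 2 + e))) = ((1 + η) * τ * Real.exp (lam ^ 2 * V1) * Real.exp (8 * (n * η))) *
        ∑ x ∈ G, ∑ y ∈ G, Real.exp ((J1 x y).card * (lam ^ 2 * W * (1 / 2 + e))) := by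
      rw [Finset.mul_sum]
      exact Finset.sum_congr rfl fun x _ => (Finset.mul_sum _ _ _).symm
    rw [e3]
    have e4 : m ^ 2 = N ^ 2 * Real.exp (lam ^ 2 * V1) := by
      rw [hm, mul_pow, ← Real.exp_nat_mul]
      congr 2
      push_cast
      ring
    refine (mul_le_mul_of_nonneg_left hpair (by positivity)).trans (le_of_eq ?_)
    rw [e4]
    ring
  -- the deviation
  have h3 : ∫ t, (Zs A J G D lam e W t - m) ^ 2 ∂μ ≤ (38 * (n * η) + η' + 8 * (n * q)) * (τ * m ^ 2) := by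
    have e1 : ∫ t, (Zs A J G D lam e W t - m) ^ 2 ∂μ = (∫ t, Zs A J G D lam e W t ^ 2 ∂μ) - 2 * m * (∫ t, Zs A J G D lam e W t ∂μ) +
        m ^ 2 * μ.real univ := by
      have e2 : ∀ t, (Zs A J G D lam e W t - m) ^ 2 = (Zs A J G D lam e W t ^ 2 - 2 * m * Zs A J G D lam e W t) + m ^ 2 := fun t => by ring
      have hA : Integrable (fun t => Zs A J G D lam e W t ^ 2 - 2 * m * Zs A J G D lam e W t) μ := hZ2i.sub (hZi.const_mul _)
      simp_rw [e2]
      rw [integral_add hA (integrable_const _), integral_sub hZ2i (hZi.const_mul _), integral_const_mul,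
        integral_const, smul_eq_mul]
      ring
    have e3 : μ.real univ ≤ τ := by
      unfold Measure.real
      exact ENNReal.toReal_le_of_le_ofReal hτ.le h.mass
    have e4 : (1 + η) * Real.exp (8 * (n * η)) * (1 + η') ≤ 1 + 36 * (n * η) + η' := by
      have k0 : 0 ≤ n * η := by positivity
      have k1 : Real.exp (8 * (n * η)) ≤ 1 + 16 * (n * η) := by
        have := Real.abs_exp_sub_one_le (x := 8 * (n * η)) (by rw [abs_of_nonneg (by linarith)]; linarith)
        rw [abs_of_nonneg (show 0 ≤ 8 * (n * η) by linarith)] at this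
        have := (abs_le.1 this).2
        linarith
      have k2 : η ≤ n * η := by nlinarith
      have k3 : (1 + η) * Real.exp (8 * (n * η)) ≤ 1 + 18 * (n * η) := by
        calc (1 + η) * Real.exp (8 * (n * η)) ≤ (1 + n * η) * (1 + 16 * (n * η)) :=
            mul_le_mul (by linarith) k1 (Real.exp_pos _).le (by linarith)
          _ ≤ _ := by nlinarith
      calc (1 + η) * Real.exp (8 * (n * η)) * (1 + η') ≤ (1 + 18 * (n * η)) * (1 + η') := mul_le_mul_of_nonneg_right k3 (by linarith)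
        _ ≤ _ := by nlinarith
    have e5 : ∫ t, Zs A J G D lam e W t ^ 2 ∂μ ≤ (1 + 36 * (n * η) + η') * (τ * m ^ 2) :=
      h2.trans (mul_le_mul_of_nonneg_right e4 (by positivity))
    have e6 : 2 * m * (m * τ * (1 - η - 4 * n * q)) ≤ 2 * m * ∫ t, Zs A J G D lam e W t ∂μ := mul_le_mul_of_nonneg_left h1 (by positivity)
    have e7 : m ^ 2 * μ.real univ ≤ m ^ 2 * τ := mul_le_mul_of_nonneg_left e3 (by positivity)
    have e8 : η ≤ n * η := by nlinarith
    have e9 : η * (τ * m ^ 2) ≤ (n * η) * (τ * m ^ 2) := mul_le_mul_of_nonneg_right e8 (by positivity)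
    rw [e1]
    nlinarith
  -- Chebyshev
  have h4 : μ {t | Zs A J G D lam e W t ≤ m / 2} ≤ ENNReal.ofReal (200 * (η' + n * η + n * q) * τ) := by
    have e1 : {t | Zs A J G D lam e W t ≤ m / 2} ⊆ {t | m ^ 2 / 4 ≤ (Zs A J G D lam e W t - m) ^ 2} := by
      intro t ht
      simp only [Set.mem_ofPred_eq] at ht ⊢
      nlinarith
    have hdi : Integrable (fun t => (Zs A J G D lam e W t - m) ^ 2) μ := by
      have e2 : ∀ t, (Zs A J G D lam e W t - m) ^ 2 = (Zs A J G D lam e W t ^ 2 - 2 * m * Zs A J G D lam e W t) + m ^ 2 := fun t => by ring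
      simp_rw [e2]
      exact (hZ2i.sub (hZi.const_mul _)).add (integrable_const _)
    have e2 := mul_meas_ge_le_integral_of_nonneg (μ := μ) (f := fun t => (Zs A J G D lam e W t - m) ^ 2) (ae_of_all _ fun t => sq_nonneg _) hdi (m ^ 2 / 4)
    refine (measure_mono e1).trans ?_
    have e3 : μ.real {t | m ^ 2 / 4 ≤ (Zs A J G D lam e W t - m) ^ 2} ≤ 200 * (η' + n * η + n * q) * τ := by
      have e4 := e2.trans h3
      have e5 : 0 < m ^ 2 / 4 := by positivity
      have e6 : m ^ 2 / 4 * μ.real {t | m ^ 2 / 4 ≤ (Zs A J G D lam e W t - m) ^ 2} ≤ m ^ 2 / 4 * (200 * (η' + n * η + n * q) * τ) := by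
        refine e4.trans ?_
        have e7 : 0 ≤ n * η := by positivity
        have e8 : 0 ≤ n * q := by positivity
        have e9 : (38 * (n * η) + η' + 8 * (n * q)) * (τ * m ^ 2) ≤ (50 * (η' + n * η + n * q)) * (τ * m ^ 2) :=
          mul_le_mul_of_nonneg_right (by linarith) (by positivity)
        refine e9.trans (le_of_eq ?_)
        ring
      exact le_of_mul_le_mul_left e6 e5
    rw [← ENNReal.ofReal_toReal (measure_ne_top μ {t | m ^ 2 / 4 ≤ (Zs A J G D lam e W t - m) ^ 2})]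
    exact ENNReal.ofReal_le_ofReal e3
  refine (measure_mono ?_).trans h4
  -- few good points
  intro t ht
  simp only [Set.mem_ofPred_eq] at ht ⊢
  have e1 : Zs A J G D lam e W t ≤ ((G.filter fun x => t ∈ Gd J D ((1 - e) * lam * W) ((1 + e) * lam * W) x).card : ℝ) *
      Real.exp (lam * ((1 + e) * lam * W) * n) := by
    rw [hZ]
    have e2 : ∀ x ∈ G, f x t ≤ if t ∈ Gd J D ((1 - e) * lam * W) ((1 + e) * lam * W) x then Real.exp (lam * ((1 + e) * lam * W) * n) else 0 := by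
      intro x hx
      rw [hf, hg]
      simp only [Set.indicator_apply, Set.mem_inter_iff]
      by_cases k1 : t ∈ Gd J D ((1 - e) * lam * W) ((1 + e) * lam * W) x
      · rw [if_pos k1]
        split_ifs
        · apply Real.exp_le_exp.2
          unfold Fm
          have k2 : ∀ j ∈ J, (fun _ : ℕ => lam) j * D j x t + (fun _ : ℕ => (0:ℝ)) j * D j x t ≤ lam * ((1 + e) * lam * W) := by
            intro j hj
            have := (k1 j hj).2
            simp only
            rw [zero_mul, add_zero]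
            exact mul_le_mul_of_nonneg_left this hl.le
          refine (Finset.sum_le_sum k2).trans ?_
          rw [Finset.sum_const, nsmul_eq_mul, ← hn]
          exact le_of_eq (by ring)
        · exact (Real.exp_pos _).le
      · rw [if_neg k1, if_neg (fun h => k1 h.2)]
    refine (Finset.sum_le_sum e2).trans ?_
    rw [← Finset.sum_filter, Finset.sum_const, nsmul_eq_mul]
  have e2 : Real.exp (lam * ((1 + e) * lam * W) * n) * (N / 4 * Real.exp (-(lam ^ 2 * n * W * (1 / 2 + e)))) ≤ m / 2 := by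
    have k1 : Real.exp (lam * ((1 + e) * lam * W) * n) * (N / 4 * Real.exp (-(lam ^ 2 * n * W * (1 / 2 + e)))) =
        N / 4 * Real.exp (lam ^ 2 * (n * W) / 2) := by
      rw [mul_left_comm, ← Real.exp_add]
      congr 2
      ring
    have k2 : n * W - n * η ≤ V1 := by
      rw [hV1, hn]
      have : ∑ j ∈ J, (W - η) ≤ ∑ j ∈ J, v j := Finset.sum_le_sum fun j hj => by linarith [(abs_le.1 (h.var j hj)).1]
      rw [Finset.sum_const, nsmul_eq_mul] at this
      linarith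
    have k3 : Real.exp (lam ^ 2 * (n * W) / 2) ≤ 2 * Real.exp (lam ^ 2 * V1 / 2) := by
      have k4 : lam ^ 2 * (n * W) / 2 ≤ lam ^ 2 * V1 / 2 + 2 * (n * η) := by
        have k5 : lam ^ 2 ≤ 4 := by nlinarith
        have k6 : 0 ≤ n * η := by positivity
        nlinarith [mul_le_mul_of_nonneg_left k2 (sq_nonneg lam), mul_le_mul_of_nonneg_right k5 k6]
      calc Real.exp (lam ^ 2 * (n * W) / 2) ≤ Real.exp (lam ^ 2 * V1 / 2 + 2 * (n * η)) := Real.exp_le_exp.2 k4
        _ = Real.exp (lam ^ 2 * V1 / 2) * Real.exp (2 * (n * η)) := Real.exp_add _ _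
        _ ≤ Real.exp (lam ^ 2 * V1 / 2) * 2 := by
          apply mul_le_mul_of_nonneg_left _ (Real.exp_pos _).le
          have k0 : 0 ≤ n * η := by positivity
          have := Real.abs_exp_sub_one_le (x := 2 * (n * η)) (by rw [abs_of_nonneg (by linarith)]; linarith)
          rw [abs_of_nonneg (show 0 ≤ 2 * (n * η) by linarith)] at this
          have := (abs_le.1 this).2
          linarith
        _ = _ := by ring
    rw [k1, hm]
    have : N / 4 * Real.exp (lam ^ 2 * (n * W) / 2) ≤ N / 4 * (2 * Real.exp (lam ^ 2 * V1 / 2)) := mul_le_mul_of_nonneg_left k3 (by linarith)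
    linarith
  calc Zs A J G D lam e W t ≤ _ := e1
    _ ≤ (N / 4 * Real.exp (-(lam ^ 2 * n * W * (1 / 2 + e)))) * Real.exp (lam * ((1 + e) * lam * W) * n) :=
        mul_le_mul_of_nonneg_right ht (Real.exp_pos _).le
    _ = Real.exp (lam * ((1 + e) * lam * W) * n) * (N / 4 * Real.exp (-(lam ^ 2 * n * W * (1 / 2 + e)))) := by ring
    _ ≤ m / 2 := e2

end

end Pool.Agent.Helper82.OR
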