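import Pool.Agent.Helper82.OR.Brw

/-!
# OR, block AS: the count of the pairs of points
-/

set_option autoImplicit false
open Finset

namespace Pool.Agent.Helper82.OR

/-- the correlated levels of two integers: `|x - y| < L^(1 - (j-2)/K)` -/
noncomputable def Co (J : Finset ℕ) (K L : ℝ) (x y : ℤ) : Finset ℕ :=
  J.filter fun j => |(x : ℝ) - y| < L ^ (1 - ((j : ℝ) - 2) / K)

/-- one side of the harmonic sum -/
lemma harm_side {M : ℕ} (S : Finset ℤ) (f : ℤ → ℕ) (hinj : Set.InjOn f S) (hmap : ∀ y ∈ S, f y ∈ Icc 1 M) :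
    ∑ y ∈ S, 1 / (f y : ℝ) ≤ 1 + Real.log M := by
  classical
  have h1 : ∑ y ∈ S, 1 / (f y : ℝ) = ∑ k ∈ S.image f, 1 / (k : ℝ) := (Finset.sum_image (f := fun k : ℕ => 1 / (k : ℝ)) hinj).symm
  have h2 : ∑ k ∈ S.image f, 1 / (k : ℝ) ≤ ∑ k ∈ Icc 1 M, 1 / (k : ℝ) := by
    apply Finset.sum_le_sum_of_subset_of_nonneg
    · intro k hk
      rw [Finset.mem_image] at hk
      obtain ⟨y, hy, rfl⟩ := hk
      exact hmap y hy
    · intro k _ _
      positivity
  have h3 : ∑ k ∈ Icc 1 M, 1 / (k : ℝ) = (harmonic M : ℝ) := by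
    rw [harmonic_eq_sum_Icc]
    push_cast
    exact Finset.sum_congr rfl fun k _ => one_div _
  rw [h1]
  exact h2.trans (h3.le.trans (harmonic_le_one_add_log M))

lemma harm_pair {G : Finset ℤ} {M : ℕ} (hG : ∀ x ∈ G, ∀ y ∈ G, (x - y).natAbs ≤ M) {x : ℤ} (hx : x ∈ G) :
    ∑ y ∈ G.erase x, 1 / |(x : ℝ) - y| ≤ 2 * (1 + Real.log M) := by
  classical
  have hval : ∀ y ∈ G.erase x, 1 / |(x : ℝ) - y| = 1 / (((x - y).natAbs : ℕ) : ℝ) := by
    intro y _
    rw [Nat.cast_natAbs]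
    push_cast
    rfl
  rw [Finset.sum_congr rfl hval, ← Finset.sum_filter_add_sum_filter_not (G.erase x) (fun y => y < x)]
  have h1 : ∑ y ∈ (G.erase x).filter (fun y => y < x), 1 / (((x - y).natAbs : ℕ) : ℝ) ≤ 1 + Real.log M := by
    apply harm_side _ (fun y => (x - y).natAbs)
    · intro y hy z hz h
      rw [Finset.mem_coe, Finset.mem_filter] at hy hz
      simp only at h
      omega
    · intro y hy
      rw [Finset.mem_filter, Finset.mem_erase] at hy
      rw [Finset.mem_Icc]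
      exact ⟨by omega, hG x hx y hy.1.2⟩
  have h2 : ∑ y ∈ (G.erase x).filter (fun y => ¬ y < x), 1 / (((x - y).natAbs : ℕ) : ℝ) ≤ 1 + Real.log M := by
    apply harm_side _ (fun y => (x - y).natAbs)
    · intro y hy z hz h
      rw [Finset.mem_coe, Finset.mem_filter] at hy hz
      simp only at h
      omega
    · intro y hy
      rw [Finset.mem_filter, Finset.mem_erase] at hy
      rw [Finset.mem_Icc]
      exact ⟨by omega, hG x hx y hy.1.2⟩
  linarith

/-- one pair -/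
lemma one_pair {J : Finset ℕ} {K L β : ℝ} (hK : 0 < K) (hL : 1 ≤ L) (hβ : 0 ≤ β) (hβL : Real.exp β ≤ L ^ (1 / K)) (hJ : ∀ j ∈ J, 5 ≤ j)
    {x y : ℤ} (hxy : x ≠ y) : Real.exp ((Co J K L x y).card * β) ≤ 1 + L ^ (1 - 2 / K) * (1 / |(x : ℝ) - y|) := by
  have hL0 : 0 < L := by linarith
  have hh : 0 < |(x : ℝ) - y| := by
    rw [abs_pos, sub_ne_zero]
    exact_mod_cast hxy
  have h0 : 0 ≤ L ^ (1 - 2 / K) * (1 / |(x : ℝ) - y|) := by positivity
  rcases (Co J K L x y).eq_empty_or_nonempty with h | h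
  · rw [h]
    simp only [Finset.card_empty, Nat.cast_zero, zero_mul, Real.exp_zero]
    linarith
  · obtain ⟨j, hj⟩ : ∃ j, j = (Co J K L x y).max' h := ⟨_, rfl⟩
    have hjm : j ∈ Co J K L x y := by rw [hj]; exact Finset.max'_mem _ _
    have hjm2 := hjm
    unfold Co at hjm2
    rw [Finset.mem_filter] at hjm2
    have hj5 := hJ j hjm2.1
    have hcard : (Co J K L x y).card ≤ j - 4 := by
      have h1 : Co J K L x y ⊆ Finset.Icc 5 j := by
        intro i hi
        rw [Finset.mem_Icc]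
        refine ⟨hJ i (Finset.mem_filter.1 hi).1, ?_⟩
        rw [hj]
        exact Finset.le_max' _ _ hi
      have h2 := Finset.card_le_card h1
      rw [Nat.card_Icc] at h2
      omega
    have hcard2 : ((Co J K L x y).card : ℝ) ≤ (j : ℝ) - 4 := by
      have h1 : (((j - 4 : ℕ)) : ℝ) = (j : ℝ) - 4 := by
        rw [Nat.cast_sub (by omega)]
        norm_num
      rw [← h1]
      exact_mod_cast hcard
    have h1 : Real.exp ((Co J K L x y).card * β) ≤ L ^ (((j : ℝ) - 4) / K) := by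
      calc Real.exp ((Co J K L x y).card * β) ≤ Real.exp (((j : ℝ) - 4) * β) :=
          Real.exp_le_exp.2 (mul_le_mul_of_nonneg_right hcard2 hβ)
        _ = (Real.exp β) ^ ((j : ℝ) - 4) := by rw [← Real.exp_mul, mul_comm]
        _ ≤ (L ^ (1 / K)) ^ ((j : ℝ) - 4) := by
          apply Real.rpow_le_rpow (Real.exp_pos _).le hβL
          have : (5:ℝ) ≤ j := by exact_mod_cast hj5
          linarith
        _ = L ^ (((j : ℝ) - 4) / K) := by
          rw [← Real.rpow_mul hL0.le]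
          congr 1
          ring
    have h2 : L ^ (((j : ℝ) - 4) / K) ≤ L ^ (1 - 2 / K) * (1 / |(x : ℝ) - y|) := by
      rw [mul_one_div, le_div_iff₀ hh]
      calc L ^ (((j : ℝ) - 4) / K) * |(x : ℝ) - y| ≤ L ^ (((j : ℝ) - 4) / K) * L ^ (1 - ((j : ℝ) - 2) / K) :=
          mul_le_mul_of_nonneg_left hjm2.2.le (by positivity)
        _ = L ^ (1 - 2 / K) := by
          rw [← Real.rpow_add hL0]
          congr 1
          ring
    linarith

/-- all pairs -/
lemma all_pairs {J : Finset ℕ} {K L β ρ : ℝ} {M : ℕ} (hK : 0 < K) (hL : 1 ≤ L) (hβ : 0 ≤ β) (hβL : Real.exp β ≤ L ^ (ρ / K))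
    (hρ1 : ρ ≤ 1) (hρ0 : 0 ≤ ρ) (hJ : ∀ j ∈ J, 5 ≤ j) (hJK : (J.card : ℝ) ≤ K) {G : Finset ℤ} (hM : 1 ≤ M)
    (hG : ∀ x ∈ G, ∀ y ∈ G, (x - y).natAbs ≤ M) (hN : L / 8 ≤ G.card) :
    ∑ x ∈ G, ∑ y ∈ G, Real.exp ((Co J K L x y).card * β) ≤
      (1 + (16 * L ^ (-(2 / K)) * (1 + Real.log M) + 8 * L ^ (ρ - 1))) * (G.card : ℝ) ^ 2 := by
  classical
  have hL0 : 0 < L := by linarith
  have hlM : 0 ≤ Real.log M := Real.log_natCast_nonneg M
  have hβL1 : Real.exp β ≤ L ^ (1 / K) := hβL.trans (Real.rpow_le_rpow_of_exponent_le hL (by gcongr))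
  have h1 : ∀ x ∈ G, ∑ y ∈ G, Real.exp ((Co J K L x y).card * β) ≤ G.card + L ^ (1 - 2 / K) * (2 * (1 + Real.log M)) + L ^ ρ := by
    intro x hx
    rw [← Finset.add_sum_erase G _ hx]
    have h2 : Real.exp ((Co J K L x x).card * β) ≤ L ^ ρ := by
      have h3 : ((Co J K L x x).card : ℝ) ≤ K := by
        have : (Co J K L x x).card ≤ J.card := Finset.card_filter_le _ _
        have h4 : ((Co J K L x x).card : ℝ) ≤ J.card := by exact_mod_cast this
        linarith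
      calc Real.exp ((Co J K L x x).card * β) ≤ Real.exp (K * β) := Real.exp_le_exp.2 (mul_le_mul_of_nonneg_right h3 hβ)
        _ = (Real.exp β) ^ K := by rw [← Real.exp_mul, mul_comm]
        _ ≤ (L ^ (ρ / K)) ^ K := Real.rpow_le_rpow (Real.exp_pos _).le hβL hK.le
        _ = L ^ ρ := by rw [← Real.rpow_mul hL0.le, div_mul_cancel₀ _ hK.ne']
    have h3 : ∑ y ∈ G.erase x, Real.exp ((Co J K L x y).card * β) ≤ G.card + L ^ (1 - 2 / K) * (2 * (1 + Real.log M)) := by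
      have h4 : ∀ y ∈ G.erase x, Real.exp ((Co J K L x y).card * β) ≤ 1 + L ^ (1 - 2 / K) * (1 / |(x : ℝ) - y|) := fun y hy =>
        one_pair hK hL hβ hβL1 hJ (Finset.ne_of_mem_erase hy).symm
      refine (Finset.sum_le_sum h4).trans ?_
      rw [Finset.sum_add_distrib, ← Finset.mul_sum, Finset.sum_const, nsmul_eq_mul, mul_one]
      have h5 : ((G.erase x).card : ℝ) ≤ G.card := by exact_mod_cast Finset.card_le_card (Finset.erase_subset _ _)
      have h6 := mul_le_mul_of_nonneg_left (harm_pair hG hx) (by positivity : 0 ≤ L ^ (1 - 2 / K))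
      linarith
    linarith
  refine (Finset.sum_le_sum h1).trans ?_
  rw [Finset.sum_const, nsmul_eq_mul]
  obtain ⟨N, hNd⟩ : ∃ N : ℝ, N = G.card := ⟨_, rfl⟩
  rw [← hNd] at hN ⊢
  have hN0 : 0 < N := by linarith
  have e1 : L ^ (1 - 2 / K) = L * L ^ (-(2 / K)) := by
    rw [sub_eq_add_neg, Real.rpow_add hL0, Real.rpow_one]
  have e2 : L ^ ρ = L * L ^ (ρ - 1) := by
    rw [show ρ = 1 + (ρ - 1) by ring, Real.rpow_add hL0, Real.rpow_one]
    congr 2
    ring
  rw [e1, e2]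
  have k1 : 0 ≤ L ^ (-(2 / K)) * (1 + Real.log M) := by positivity
  have k2 : 0 ≤ L ^ (ρ - 1) := by positivity
  have k3 : L ≤ 8 * N := by linarith
  have k4 : L * (L ^ (-(2 / K)) * (1 + Real.log M)) ≤ 8 * N * (L ^ (-(2 / K)) * (1 + Real.log M)) := mul_le_mul_of_nonneg_right k3 k1
  have k5 : L * L ^ (ρ - 1) ≤ 8 * N * L ^ (ρ - 1) := mul_le_mul_of_nonneg_right k3 k2
  calc N * (N + L * L ^ (-(2 / K)) * (2 * (1 + Real.log M)) + L * L ^ (ρ - 1)) =
      N * (N + 2 * (L * (L ^ (-(2 / K)) * (1 + Real.log M))) + L * L ^ (ρ - 1)) := by ring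
    _ ≤ N * (N + 2 * (8 * N * (L ^ (-(2 / K)) * (1 + Real.log M))) + 8 * N * L ^ (ρ - 1)) :=
        mul_le_mul_of_nonneg_left (by linarith) hN0.le
    _ = _ := by ring

end Pool.Agent.Helper82.OR
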